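import Pool.Agent.Run7.h742.VI.Rad
import Pool.Agent.TH910.Voj.Trunc

/-!
# The truncated counting function of a reduced divisor in the slices of a box (helper742)
-/

set_option autoImplicit false

namespace Run7.h742.VI

open MvPolynomial Pool.Agent.TH910.Voj Pool.Agent.H813R3.Voj

/-- a form which vanishes on the hyperplane `x 0 = 0` is divisible by `X 0` -/
theorem X_zero_dvd {n : ℕ} (F : MvPolynomial (Fin (n + 1)) ℤ)
    (h : ∀ a : Fin (n + 1) → ℤ, a 0 = 0 → eval a F = 0) : (X 0 : MvPolynomial (Fin (n + 1)) ℤ) ∣ F := by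
  classical
  set f : Fin (n + 1) → MvPolynomial (Fin (n + 1)) ℤ := fun i => if i = 0 then 0 else X i with hf
  have h1 : bind₁ f F = 0 := by
    refine MvPolynomial.funext fun x => ?_
    have h2 : eval x (bind₁ f F) = eval (fun i => if i = 0 then 0 else x i) F := by
      have h3 : (eval x).comp (bind₁ f : MvPolynomial (Fin (n + 1)) ℤ →ₐ[ℤ] _).toRingHom =
          eval (fun i => if i = 0 then 0 else x i) := by
        refine MvPolynomial.ringHom_ext' (RingHom.ext_int _ _) fun i => ?_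
        by_cases hi : i = 0
        · simp [hf, hi]
        · simp [hf, hi]
      exact congrArg (fun g : MvPolynomial (Fin (n + 1)) ℤ →+* ℤ => g F) h3
    rw [h2, map_zero]
    exact h _ (by simp)
  have h2 : (Ideal.Quotient.mk (Ideal.span {(X 0 : MvPolynomial (Fin (n + 1)) ℤ)})).comp
      (bind₁ f : MvPolynomial (Fin (n + 1)) ℤ →ₐ[ℤ] _).toRingHom =
      Ideal.Quotient.mk (Ideal.span {(X 0 : MvPolynomial (Fin (n + 1)) ℤ)}) := by
    refine MvPolynomial.ringHom_ext' (RingHom.ext_int _ _) fun i => ?_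
    by_cases hi : i = 0
    · subst hi
      have h3 : Ideal.Quotient.mk (Ideal.span {(X 0 : MvPolynomial (Fin (n + 1)) ℤ)}) (X 0) = 0 :=
        Ideal.Quotient.eq_zero_iff_mem.2 (Ideal.mem_span_singleton_self _)
      rw [h3]
      simp [hf]
    · simp [hf, hi]
  have h3 := congrArg (fun g : MvPolynomial (Fin (n + 1)) ℤ →+* _ => g F) h2
  simp only [RingHom.comp_apply, AlgHom.toRingHom_eq_coe, RingHom.coe_coe, h1, map_zero] at h3
  exact Ideal.mem_span_singleton.1 (Ideal.Quotient.eq_zero_iff_mem.1 h3.symm)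

theorem exists_direction {n k : ℕ} (F : MvPolynomial (Fin (n + 1)) ℤ) (hk : F.IsHomogeneous k)
    (hirr : Irreducible (toQ F))
    (hX : ¬ Associated (toQ F) (X 0 : MvPolynomial (Fin (n + 1)) ℚ)) :
    1 ≤ k ∧ ∃ (a : Fin (n + 1) → ℤ) (i₀ : Fin (n + 1)), eval a F ≠ 0 ∧ a i₀ ≠ 0 ∧ a 0 = 0 := by
  have hk1 : 1 ≤ k := by
    by_contra hcon
    have hk0 : k = 0 := by omega
    subst hk0
    have h1 : F.totalDegree = 0 := Nat.le_zero.1 hk.totalDegree_le
    have h2 := totalDegree_eq_zero_iff_eq_C.1 h1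
    have h3 : toQ F = C ((coeff 0 F : ℤ) : ℚ) := by
      conv_lhs => rw [h2]
      exact (map_C _ _).trans rfl
    by_cases h0 : coeff 0 F = 0
    · refine hirr.ne_zero ?_
      rw [h3, h0]; simp
    · refine hirr.not_isUnit ?_
      rw [h3]
      exact IsUnit.map C (isUnit_iff_ne_zero.mpr (by exact_mod_cast h0))
  refine ⟨hk1, ?_⟩
  by_contra hcon
  have h1 : ∀ a : Fin (n + 1) → ℤ, a 0 = 0 → eval a F = 0 := by
    intro a ha0
    by_contra hFa
    refine hcon ⟨a, ?_⟩
    by_contra hcon2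
    have h2 : a = 0 := by
      funext i
      by_contra hi
      exact hcon2 ⟨i, hFa, hi, ha0⟩
    refine hFa ?_
    rw [h2]
    have h3 : eval (0 : Fin (n + 1) → ℤ) F = constantCoeff F := by
      rw [MvPolynomial.eval_zero]
    rw [h3, constantCoeff_eq]
    exact hk.coeff_eq_zero (by rw [map_zero]; omega)
  obtain ⟨G, hG⟩ := X_zero_dvd F h1
  have h2 : toQ F = X 0 * toQ G := by
    rw [hG, map_mul]
    simp [toQ]
  rcases hirr.isUnit_or_isUnit h2 with h3 | h3
  · have h4 : (X 0 : MvPolynomial (Fin (n + 1)) ℚ) ∣ 1 := isUnit_iff_dvd_one.1 h3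
    obtain ⟨q, hq⟩ := h4
    have h5 := congrArg (eval (0 : Fin (n + 1) → ℚ)) hq
    rw [map_mul, eval_X, map_one] at h5
    simp at h5
  · refine hX ?_
    rw [h2]
    exact (associated_mul_unit_left _ _ h3)

theorem main_slice {n r : ℕ} (hn : 1 ≤ n) (S : Finset ℕ)
    (F : Fin r → MvPolynomial (Fin (n + 1)) ℤ)
    (k : Fin r → ℕ) (hhom : ∀ j, (F j).IsHomogeneous (k j))
    (hirr : ∀ j, Irreducible (toQ (F j)))
    (hdist : ∀ i j, i ≠ j → ¬ Associated (toQ (F i)) (toQ (F j)))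
    (hX : ∀ j, ¬ Associated (toQ (F j)) (X 0 : MvPolynomial (Fin (n + 1)) ℚ))
    (θ : ℝ) (hθ : θ < ∑ j, ((min (k j) 2 : ℕ) : ℝ)) :
    SSparse n (fun B x => (∃ j, eval x (F j) = 0) ∨
      logRad S (∏ j, eval x (F j)) < θ * Real.log B) := by
  classical
  set m : Fin r → ℕ := fun j => min (k j) 2 with hm
  set G : Fin r → MvPolynomial (Fin (n + 1)) ℤ := fun j => ∏ i ∈ Finset.univ.erase j, F i with hG
  have hGdvd : ∀ j, ¬ toQ (F j) ∣ toQ (G j) := by
    intro j hdvd
    rw [hG, map_prod] at hdvd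
    obtain ⟨i, hi, h2⟩ := ((hirr j).prime.dvd_finsetProd_iff _).mp hdvd
    exact hdist j i (Finset.ne_of_mem_erase hi).symm ((hirr j).associated_of_dvd (hirr i) h2)
  have hGhom : ∀ j, (G j).IsHomogeneous (∑ i ∈ Finset.univ.erase j, k i) := fun j =>
    IsHomogeneous.prod _ _ _ fun i _ => hhom i
  have hF0 : ∀ j, F j ≠ 0 := by
    intro j h0
    exact (hirr j).ne_zero (by rw [h0, map_zero])
  have hdir := fun j => exists_direction (F j) (hhom j) (hirr j) (hX j)
  set Δ : ℝ := (∑ j, (m j : ℝ)) - θ with hΔ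
  have hΔ0 : 0 < Δ := by rw [hΔ]; linarith
  set η : ℝ := Δ / (4 * (r + 1)) with hη
  have hη0 : 0 < η := by positivity
  obtain ⟨B₀, hB₀⟩ : ∃ B₀ : ℕ, ∀ B : ℕ, B₀ ≤ B →
      ∑ p ∈ S, Real.log (p : ℝ) ≤ Δ / 2 * Real.log B := by
    have h1 : Filter.Tendsto (fun B : ℕ => Δ / 2 * Real.log B) Filter.atTop Filter.atTop :=
      (Real.tendsto_log_atTop.comp tendsto_natCast_atTop_atTop).const_mul_atTop (by positivity)
    exact Filter.eventually_atTop.mp (h1.eventually_ge_atTop (∑ p ∈ S, Real.log (p : ℝ)))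
  have hsp : ∀ j, SSparse n (fun B x => eval x (F j) = 0 ∨
      ((eval x (F j) ≠ 0 ∧ (rd (eval x (F j)).natAbs : ℝ) ≤ (B : ℝ) ^ ((m j : ℝ) - η)) ∨
        (eval x (F j) ≠ 0 ∧ (B : ℝ) ^ η < rd (Int.gcd (eval x (F j)) (eval x (G j)))))) := by
    intro j
    obtain ⟨hk1, a, i₀, hFa, ha, ha0⟩ := hdir j
    exact (sparse_zeros hn (F j) (hhom j) (hF0 j)).or
      ((sparse_rad hn (F j) (hhom j) hk1 (hirr j) a i₀ hFa ha ha0 (m j) η hη0
        (by exact_mod_cast min_le_left (k j) 2) (by exact_mod_cast min_le_right (k j) 2)).or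
        (sparse_gcd hn (F j) (G j) (hhom j) (hGhom j) (hirr j) (hGdvd j) a i₀ hFa ha ha0 hη0))
  refine (SSparse.exists_fin hsp).of_eventually B₀ ?_
  rintro B x hBB hB hx - hbad
  by_contra hcon
  push Not at hcon
  have hB1 : (1 : ℝ) ≤ B := by exact_mod_cast hB
  have hBpos : (0 : ℝ) < B := by linarith
  have hlogB : 0 ≤ Real.log B := Real.log_nonneg hB1
  have ha : ∀ j, eval x (F j) ≠ 0 := fun j => (hcon j).1
  have hlt : logRad S (∏ j, eval x (F j)) < θ * Real.log B := by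
    rcases hbad with ⟨j, hj⟩ | h
    · exact absurd hj (ha j)
    · exact h
  have hab : ∀ i j, i ≠ j → eval x (F i) ∣ eval x (G j) := by
    intro i j hij
    rw [hG]
    simp only [map_prod]
    exact Finset.dvd_prod_of_mem (fun i => eval x (F i))
      (Finset.mem_erase.mpr ⟨hij, Finset.mem_univ i⟩)
  have h1 := logRad_prod_ge S (fun j => eval x (F j)) ha (fun j => eval x (G j)) hab
  have hj : ∀ j, ((m j : ℝ) - 2 * η) * Real.log B ≤
      Real.log (rd (eval x (F j)).natAbs) -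
        Real.log (rd (Int.gcd (eval x (F j)) (eval x (G j)))) := by
    intro j
    obtain ⟨-, h1, h2⟩ := hcon j
    have h3 := h1 (ha j)
    have h4 := h2 (ha j)
    have e1 : ((m j : ℝ) - η) * Real.log B ≤ Real.log (rd (eval x (F j)).natAbs) := by
      rw [← Real.log_rpow hBpos]
      exact Real.log_le_log (by positivity) h3.le
    have e2 : Real.log (rd (Int.gcd (eval x (F j)) (eval x (G j)))) ≤ η * Real.log B := by
      rw [← Real.log_rpow hBpos]
      exact Real.log_le_log (by exact_mod_cast rd_pos _) h4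
    linarith
  have h2 := Finset.sum_le_sum fun j (_ : j ∈ Finset.univ) => hj j
  rw [← Finset.sum_mul, Finset.sum_sub_distrib, Finset.sum_const, Finset.card_univ,
    Fintype.card_fin, nsmul_eq_mul] at h2
  have h8 : (r : ℝ) * (2 * η) ≤ Δ / 2 := by
    rw [hη]
    have hq : (0 : ℝ) ≤ r := Nat.cast_nonneg r
    rw [← mul_div_assoc, ← mul_div_assoc, div_le_div_iff₀ (by positivity) (by norm_num)]
    nlinarith
  have h9 := hB₀ B hBB
  have h10 : (r : ℝ) * (2 * η) * Real.log B ≤ Δ / 2 * Real.log B :=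
    mul_le_mul_of_nonneg_right h8 hlogB
  have h11 : (∑ j, (m j : ℝ)) = θ + Δ := by rw [hΔ]; ring
  rw [h11] at h2
  have h12 : (θ + Δ - r * (2 * η)) * Real.log B = θ * Real.log B + Δ * Real.log B -
    r * (2 * η) * Real.log B := by ring
  linarith

end Run7.h742.VI
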