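import Pool.Agent.Run7.h742.VI.Slice
import Pool.Agent.H510R2.Div

/-!
# Points with denominators in a given set, and a diagonal argument (helper742)
-/

set_option autoImplicit false

namespace Run7.h742.VI

open MvPolynomial Pool.Agent.TH910.Voj Pool.Agent.H813R3.Voj

/-- the height of an integer vector -/
def Ht {n : ℕ} (x : Fin (n + 1) → ℤ) : ℕ := Finset.univ.sup fun j => (x j).natAbs

/-- the points with denominator in `M` and height at most `B` -/
def Pts (n : ℕ) (M : Set ℕ) (B : ℕ) : Set (Fin (n + 1) → ℤ) :=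
  {x | Finset.univ.gcd x = 1 ∧ 0 < x 0 ∧ (x 0).toNat ∈ M ∧ Ht x ≤ B}

theorem mem_box_iff {n B : ℕ} {x : Fin (n + 1) → ℤ} : x ∈ box (n + 1) B ↔ Ht x ≤ B := by
  rw [mem_box]
  unfold Ht
  rw [Finset.sup_le_iff]
  constructor
  · intro h j _
    have := h j
    rw [Int.abs_eq_natAbs] at this
    exact_mod_cast this
  · intro h j
    have := h j (Finset.mem_univ j)
    rw [Int.abs_eq_natAbs]
    exact_mod_cast this

theorem Pts_finite (n : ℕ) (M : Set ℕ) (B : ℕ) : (Pts n M B).Finite :=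
  (box (n + 1) B).finite_toSet.subset fun _ hx => mem_box_iff.2 hx.2.2.2

/-- comparison of counts: from one denominator to a set of denominators -/
theorem count_of_single {n : ℕ} (B : ℕ) (Q : (Fin (n + 1) → ℤ) → Prop) (κ : ℝ)
    (h : ∀ m : ℕ, 1 ≤ m → m ≤ B →
      (Set.ncard {x | x ∈ Pts n {m} B ∧ Q x} : ℝ) ≤ κ * (Pts n {m} B).ncard) (M : Set ℕ) :
    (Set.ncard {x | x ∈ Pts n M B ∧ Q x} : ℝ) ≤ κ * (Pts n M B).ncard := by
  classical
  set X := (Pts_finite n M B).toFinset with hX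
  have hmem : ∀ x, x ∈ X ↔ x ∈ Pts n M B := fun x => by rw [hX, Set.Finite.mem_toFinset]
  set I := (Finset.Icc 1 B).filter fun m => m ∈ M with hI
  have hmap : ∀ x ∈ X, (x 0).toNat ∈ I := by
    intro x hx
    rw [hmem] at hx
    obtain ⟨h1, h2, h3, h4⟩ := hx
    rw [hI, Finset.mem_filter, Finset.mem_Icc]
    have h5 := mem_box.mp (mem_box_iff.2 h4) 0
    rw [abs_le] at h5
    exact ⟨⟨by omega, by omega⟩, h3⟩
  have e1 : (Pts n M B).ncard = X.card := by
    rw [← Set.ncard_coe_finset]; congr 1; ext x; rw [Finset.mem_coe, hmem]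
  have e2 : Set.ncard {x | x ∈ Pts n M B ∧ Q x} = (X.filter Q).card := by
    rw [← Set.ncard_coe_finset]; congr 1; ext x
    rw [Finset.mem_coe, Finset.mem_filter, hmem]; rfl
  have e3 : ∀ m ∈ I, ∀ x, x ∈ Pts n {m} B ↔ x ∈ X ∧ (x 0).toNat = m := by
    intro m hm x
    rw [hmem]
    rw [hI, Finset.mem_filter] at hm
    constructor
    · rintro ⟨h1, h2, h3, h4⟩
      rw [Set.mem_singleton_iff] at h3
      exact ⟨⟨h1, h2, by rw [h3]; exact hm.2, h4⟩, h3⟩
    · rintro ⟨⟨h1, h2, -, h4⟩, h3⟩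
      exact ⟨h1, h2, h3, h4⟩
  rw [e1, e2]
  have f1 : (X.filter Q).card = ∑ m ∈ I, ((X.filter Q).filter fun x => (x 0).toNat = m).card :=
    Finset.card_eq_sum_card_fiberwise fun x hx => hmap x (Finset.mem_filter.1 hx).1
  have f2 : X.card = ∑ m ∈ I, (X.filter fun x => (x 0).toNat = m).card :=
    Finset.card_eq_sum_card_fiberwise hmap
  rw [f1, f2, Nat.cast_sum, Nat.cast_sum, Finset.mul_sum]
  refine Finset.sum_le_sum fun m hm => ?_
  have hm' := hm
  rw [hI, Finset.mem_filter, Finset.mem_Icc] at hm'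
  have g := h m hm'.1.1 hm'.1.2
  have g1 : Set.ncard {x | x ∈ Pts n {m} B ∧ Q x} =
      ((X.filter Q).filter fun x => (x 0).toNat = m).card := by
    rw [← Set.ncard_coe_finset]; congr 1; ext x
    rw [Finset.mem_coe, Finset.mem_filter, Finset.mem_filter, Set.mem_ofPred_eq, e3 m hm]
    tauto
  have g2 : (Pts n {m} B).ncard = (X.filter fun x => (x 0).toNat = m).card := by
    rw [← Set.ncard_coe_finset]; congr 1; ext x
    rw [Finset.mem_coe, Finset.mem_filter, e3 m hm]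
  rw [← g1, ← g2]
  exact g

/-- there are many numbers prime to `m` -/
theorem card_coprime_ge (m B : ℕ) (hm : 1 ≤ m) :
    (B / m) * Nat.totient m ≤ ((Finset.range (B + 1)).filter fun y => Nat.Coprime m y).card := by
  classical
  rw [Nat.totient_eq_card_coprime, ← Finset.card_range (B / m), ← Finset.card_product]
  refine Finset.card_le_card_of_injOn (fun z => m * z.1 + z.2) ?_ ?_
  · rintro ⟨t, r⟩ hz
    rw [Finset.mem_coe, Finset.mem_product, Finset.mem_range, Finset.mem_filter,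
      Finset.mem_range] at hz
    obtain ⟨ht, hr, hc⟩ := hz
    simp only at ht hr hc
    rw [Finset.mem_coe, Finset.mem_filter, Finset.mem_range]
    refine ⟨?_, ?_⟩
    · have h1 : m * (t + 1) ≤ m * (B / m) := Nat.mul_le_mul_left m ht
      have h2 := Nat.mul_div_le B m
      simp only
      nlinarith
    · simp only
      rw [Nat.coprime_mul_left_add_right]
      exact hc
  · rintro ⟨t, r⟩ hz ⟨t', r'⟩ hz' heq
    rw [Finset.mem_coe, Finset.mem_product, Finset.mem_range, Finset.mem_filter,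
      Finset.mem_range] at hz hz'
    simp only at heq hz hz'
    have h1 : t = t' := by
      have h2 := congrArg (fun y => y / m) heq
      rw [Nat.mul_add_div (by omega), Nat.mul_add_div (by omega), Nat.div_eq_of_lt hz.2.1,
        Nat.div_eq_of_lt hz'.2.1] at h2
      omega
    subst h1
    have h2 : r = r' := by omega
    rw [h2]

theorem totient_mul_divisors (m : ℕ) (hm : 1 ≤ m) : m ≤ m.divisors.card * Nat.totient m := by
  calc m = ∑ d ∈ m.divisors, Nat.totient d := (Nat.sum_totient m).symm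
    _ ≤ ∑ _d ∈ m.divisors, Nat.totient m := by
        refine Finset.sum_le_sum fun d hd => ?_
        exact Nat.le_of_dvd (Nat.totient_pos.2 (by omega))
          (Nat.totient_dvd_of_dvd (Nat.dvd_of_mem_divisors hd))
    _ = _ := by rw [Finset.sum_const, smul_eq_mul]

/-- a lower bound for the number of points with a given denominator -/
theorem Pts_lower {n : ℕ} (hn : 1 ≤ n) {δ : ℝ} (hδ : 0 < δ) :
    ∃ c : ℝ, 0 < c ∧ ∀ B m : ℕ, 1 ≤ m → m ≤ B →
      c * (B : ℝ) ^ ((n : ℝ) - δ) ≤ (Pts n {m} B).ncard := by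
  classical
  obtain ⟨C, hC, hdiv⟩ := Pool.Agent.H510R2.divisor_bound δ hδ
  obtain ⟨n', rfl⟩ : ∃ n', n = n' + 1 := ⟨n - 1, by omega⟩
  refine ⟨1 / (2 * C), by positivity, fun B m hm hmB => ?_⟩
  have hB : 1 ≤ B := hm.trans hmB
  have hBr : (1 : ℝ) ≤ B := by exact_mod_cast hB
  have hB0 : (0 : ℝ) < B := by linarith
  set A := (Finset.range (B + 1)).filter fun y => Nat.Coprime m y with hA
  set Z : Finset (ℕ × (Fin n' → ℤ)) := A ×ˢ (box n' B) with hZ
  have hinj : Z.card ≤ (Pts (n' + 1) {m} B).ncard := by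
    rw [← Set.ncard_coe_finset]
    refine Set.ncard_le_ncard_of_injOn
      (fun z => (Fin.cons (m : ℤ) (Fin.cons (z.1 : ℤ) z.2) : Fin (n' + 1 + 1) → ℤ)) ?_ ?_
      (Pts_finite _ _ _)
    · rintro ⟨y, w⟩ hz
      rw [Finset.mem_coe, hZ, Finset.mem_product, hA, Finset.mem_filter, Finset.mem_range] at hz
      obtain ⟨⟨hy, hc⟩, hw⟩ := hz
      simp only at hy hc hw
      refine ⟨?_, ?_, ?_, ?_⟩
      · -- the greatest common divisor
        have h0 : (Finset.univ.gcd (Fin.cons (m : ℤ) (Fin.cons (y : ℤ) w) :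
            Fin (n' + 1 + 1) → ℤ)) ∣ 1 := by
          have h1 : (Finset.univ.gcd (Fin.cons (m : ℤ) (Fin.cons (y : ℤ) w) :
            Fin (n' + 1 + 1) → ℤ)) ∣ (m : ℤ) := by
            have := Finset.gcd_dvd (f := (Fin.cons (m : ℤ) (Fin.cons (y : ℤ) w) :
              Fin (n' + 1 + 1) → ℤ)) (Finset.mem_univ 0)
            simpa using this
          have h2 : (Finset.univ.gcd (Fin.cons (m : ℤ) (Fin.cons (y : ℤ) w) :
            Fin (n' + 1 + 1) → ℤ)) ∣ (y : ℤ) := by
            have := Finset.gcd_dvd (f := (Fin.cons (m : ℤ) (Fin.cons (y : ℤ) w) :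
              Fin (n' + 1 + 1) → ℤ)) (Finset.mem_univ 1)
            simpa using this
          have h3 : IsCoprime (m : ℤ) (y : ℤ) := Nat.isCoprime_iff_coprime.2 hc
          exact (isUnit_iff_dvd_one.1 (h3.isUnit_of_dvd' h1 h2))
        have h4 := Finset.normalize_gcd (s := Finset.univ)
          (f := (Fin.cons (m : ℤ) (Fin.cons (y : ℤ) w) : Fin (n' + 1 + 1) → ℤ))
        rw [← h4]
        exact normalize_eq_one.2 (isUnit_iff_dvd_one.2 h0)
      · simp only [Fin.cons_zero]; omega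
      · simp only [Fin.cons_zero]; simp
      · rw [← mem_box_iff, mem_box]
        intro i
        refine Fin.cases ?_ (fun i => Fin.cases ?_ (fun j => ?_) i) i
        · simp only [Fin.cons_zero]; rw [abs_le]; omega
        · simp only [Fin.cons_succ, Fin.cons_zero]; rw [abs_le]; omega
        · simp only [Fin.cons_succ]; exact mem_box.mp hw j
    · rintro ⟨y, w⟩ - ⟨y', w'⟩ - heq
      simp only at heq
      have h1 := Fin.cons_injective2 heq
      have h2 := Fin.cons_injective2 h1.2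
      have h3 : y = y' := by exact_mod_cast h2.1
      rw [h3, h2.2]
  have hcard : ((B / m : ℕ) : ℝ) * Nat.totient m * (B : ℝ) ^ n' ≤ Z.card := by
    rw [hZ, Finset.card_product, card_box]
    push_cast
    have h1 : ((B / m : ℕ) : ℝ) * Nat.totient m ≤ A.card := by exact_mod_cast card_coprime_ge m B hm
    refine mul_le_mul h1 ?_ (by positivity) (by positivity)
    exact pow_le_pow_left₀ (by positivity) (by linarith) _
  have h1 : (B : ℝ) ≤ 2 * m * (B / m : ℕ) := by
    have h2 : B < m * (B / m) + m := by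
      have := Nat.div_add_mod B m
      have := Nat.mod_lt B (show 0 < m by omega)
      omega
    have h3 : 1 ≤ B / m := Nat.div_pos hmB (by omega)
    have h4 : m ≤ m * (B / m) := Nat.le_mul_of_pos_right m h3
    have h5 : B ≤ 2 * m * (B / m) := by nlinarith
    exact_mod_cast h5
  have h2 : (m : ℝ) ≤ C * (B : ℝ) ^ δ * Nat.totient m := by
    have h3 : (m : ℝ) ≤ m.divisors.card * Nat.totient m := by
      exact_mod_cast totient_mul_divisors m hm
    refine h3.trans (mul_le_mul_of_nonneg_right ?_ (Nat.cast_nonneg _))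
    refine (hdiv m hm).trans (mul_le_mul_of_nonneg_left ?_ hC.le)
    exact Real.rpow_le_rpow (Nat.cast_nonneg _) (by exact_mod_cast hmB) hδ.le
  have h3 : (B : ℝ) ≤ 2 * C * (B : ℝ) ^ δ * (((B / m : ℕ) : ℝ) * Nat.totient m) := by
    calc (B : ℝ) ≤ 2 * m * (B / m : ℕ) := h1
      _ ≤ 2 * (C * (B : ℝ) ^ δ * Nat.totient m) * (B / m : ℕ) := by gcongr
      _ = _ := by ring
  have hle : (Z.card : ℝ) ≤ (Pts (n' + 1) {m} B).ncard := by exact_mod_cast hinj
  refine le_trans ?_ (hcard.trans hle)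
  have h4 : (B : ℝ) ^ (((n' + 1 : ℕ) : ℝ) - δ) = B * (B : ℝ) ^ n' / (B : ℝ) ^ δ := by
    rw [Real.rpow_sub hB0, Real.rpow_natCast, pow_succ]
    ring
  rw [h4]
  have hδ0 : 0 < (B : ℝ) ^ δ := by positivity
  have h5 : 1 / (2 * C) * (B * (B : ℝ) ^ n' / (B : ℝ) ^ δ) =
      (B / (2 * C * (B : ℝ) ^ δ)) * (B : ℝ) ^ n' := by
    field_simp
  rw [h5]
  refine mul_le_mul_of_nonneg_right ?_ (by positivity)
  rw [div_le_iff₀ (by positivity)]
  linarith

/-- a diagonal argument: countably many sets of density zero and one set of density zero -/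
theorem diag_dens {X ι : Type*} (A : ι → Set X) (T : X → ℕ)
    (hfin : ∀ i B, {x | x ∈ A i ∧ T x ≤ B}.Finite) (E : ℕ → Set X)
    (hE : ∀ i, ∀ ε : ℝ, 0 < ε → ∃ B₀ : ℕ, ∀ B : ℕ, B₀ ≤ B → ∀ a : ι,
      (Set.ncard {x | (x ∈ A a ∧ T x ≤ B) ∧ x ∈ E i} : ℝ) ≤
        ε * (Set.ncard {x | x ∈ A a ∧ T x ≤ B} : ℝ)) :
    ∃ E₀ : Set X, (∀ ε : ℝ, 0 < ε → ∃ B₀ : ℕ, ∀ B : ℕ, B₀ ≤ B → ∀ a : ι,
      (Set.ncard {x | (x ∈ A a ∧ T x ≤ B) ∧ x ∈ E₀} : ℝ) ≤
        ε * (Set.ncard {x | x ∈ A a ∧ T x ≤ B} : ℝ)) ∧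
      ∀ i, ∃ B : ℕ, ∀ x ∈ E i, B < T x → x ∈ E₀ := by
  classical
  have h1 : ∀ i j : ℕ, ∃ t : ℕ, ∀ B : ℕ, t ≤ B → ∀ a : ι,
      (Set.ncard {x | (x ∈ A a ∧ T x ≤ B) ∧ x ∈ E j} : ℝ) ≤
        1 / ((i : ℝ) + 1) ^ 2 * (Set.ncard {x | x ∈ A a ∧ T x ≤ B} : ℝ) := fun i j =>
    hE j _ (by positivity)
  choose t ht using h1
  let U : ℕ → ℕ := fun i => ∑ i' ∈ Finset.range (i + 1), (1 + ∑ j ∈ Finset.range (i' + 1), t i' j)
  have hUmono : Monotone U := by
    refine monotone_nat_of_le_succ fun i => ?_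
    show U i ≤ ∑ i' ∈ Finset.range (i + 1 + 1), (1 + ∑ j ∈ Finset.range (i' + 1), t i' j)
    rw [Finset.sum_range_succ]
    exact Nat.le_add_right _ _
  have hUi : ∀ i : ℕ, i < U i := by
    intro i
    have h2 : ∑ i' ∈ Finset.range (i + 1), 1 ≤ U i :=
      Finset.sum_le_sum fun i' _ => Nat.le_add_right _ _
    rw [Finset.sum_const, Finset.card_range, smul_eq_mul, mul_one] at h2
    omega
  have hUt : ∀ i j : ℕ, j ≤ i → t i j ≤ U i := by
    intro i j hji
    have h2 : t i j ≤ ∑ j ∈ Finset.range (i + 1), t i j :=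
      Finset.single_le_sum (f := fun j => t i j) (fun j _ => Nat.zero_le _)
        (Finset.mem_range.2 (by omega))
    have h3 : 1 + ∑ j ∈ Finset.range (i + 1), t i j ≤ U i :=
      Finset.single_le_sum (f := fun i' => 1 + ∑ j ∈ Finset.range (i' + 1), t i' j)
        (fun i' _ => Nat.zero_le _) (Finset.mem_range.2 (Nat.lt_succ_self i))
    omega
  refine ⟨⋃ i, {x | x ∈ E i ∧ U i < T x}, ?_, fun i => ⟨U i, fun x hx hxF => ?_⟩⟩
  · intro ε hε
    obtain ⟨M, hM⟩ : ∃ M : ℕ, 1 / ε ≤ M := exists_nat_ge _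
    refine ⟨U M, fun B hB a => ?_⟩
    -- the last index
    have hex : ∃ i : ℕ, B < U i := ⟨B, hUi B⟩
    set s := Nat.find hex with hs
    have hs1 : B < U s := Nat.find_spec hex
    have hMs : M < s := by
      by_contra h
      push Not at h
      have := hUmono h
      omega
    obtain ⟨j, hj⟩ : ∃ j, s = j + 1 := ⟨s - 1, by omega⟩
    have hj1 : U j ≤ B := by
      have := Nat.find_min hex (m := j) (by omega)
      push Not at this
      exact this
    have hsub : {x | (x ∈ A a ∧ T x ≤ B) ∧ x ∈ ⋃ i, {x | x ∈ E i ∧ U i < T x}} ⊆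
        ⋃ i ∈ Finset.range (j + 1), {x | (x ∈ A a ∧ T x ≤ B) ∧ x ∈ E i} := by
      rintro x ⟨⟨hxa, hxB⟩, hx⟩
      rw [Set.mem_iUnion] at hx
      obtain ⟨i, hxi, hxF⟩ := hx
      rw [Set.mem_iUnion₂]
      refine ⟨i, ?_, ⟨hxa, hxB⟩, hxi⟩
      rw [Finset.mem_range]
      by_contra h
      have h2 : U s ≤ U i := hUmono (by omega)
      omega
    have hfin2 : (⋃ i ∈ Finset.range (j + 1), {x | (x ∈ A a ∧ T x ≤ B) ∧ x ∈ E i}).Finite :=
      Set.Finite.biUnion (Finset.finite_toSet _) fun i _ => (hfin a B).subset fun x hx => hx.1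
    have h2 : (Set.ncard {x | (x ∈ A a ∧ T x ≤ B) ∧ x ∈ ⋃ i, {x | x ∈ E i ∧ U i < T x}} : ℝ) ≤
        ∑ i ∈ Finset.range (j + 1), (Set.ncard {x | (x ∈ A a ∧ T x ≤ B) ∧ x ∈ E i} : ℝ) := by
      have := (Set.ncard_le_ncard hsub hfin2).trans
        (Finset.set_ncard_biUnion_le (Finset.range (j + 1))
          fun i => {x | (x ∈ A a ∧ T x ≤ B) ∧ x ∈ E i})
      exact_mod_cast this
    refine h2.trans ?_
    have h3 : ∀ i ∈ Finset.range (j + 1), (Set.ncard {x | (x ∈ A a ∧ T x ≤ B) ∧ x ∈ E i} : ℝ) ≤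
        1 / ((j : ℝ) + 1) ^ 2 * (Set.ncard {x | x ∈ A a ∧ T x ≤ B} : ℝ) := by
      intro i hi
      rw [Finset.mem_range] at hi
      exact ht j i B ((hUt j i (by omega)).trans hj1) a
    refine (Finset.sum_le_card_nsmul _ _ _ h3).trans ?_
    rw [Finset.card_range, nsmul_eq_mul, ← mul_assoc]
    refine mul_le_mul_of_nonneg_right ?_ (Nat.cast_nonneg _)
    have h4 : (M : ℝ) ≤ (j : ℝ) + 1 := by
      have : M ≤ j + 1 := by omega
      exact_mod_cast this
    have h5 : 0 < (j : ℝ) + 1 := by positivity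
    have h6 : ((j + 1 : ℕ) : ℝ) * (1 / ((j : ℝ) + 1) ^ 2) = 1 / ((j : ℝ) + 1) := by
      push_cast
      field_simp
    rw [h6, div_le_iff₀ h5]
    have h7 : 1 / ε ≤ (j : ℝ) + 1 := hM.trans h4
    rw [div_le_iff₀ hε] at h7
    linarith
  · rw [Set.mem_iUnion]
    exact ⟨i, hx, hxF⟩

theorem countable_polyZ (n : ℕ) : Countable (MvPolynomial (Fin n) ℤ) := by
  rw [← Cardinal.mk_le_aleph0_iff]
  refine le_trans MvPolynomial.cardinalMk_le_max ?_
  simp

end Run7.h742.VI
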