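import Pool.Agent.Run7.h742.VI.Main
import Pool.Agent.Run7.h742.VI.Dens

/-!
# Vojta's inequality for almost all points with denominators in any given set (helper742)
-/

set_option autoImplicit false

namespace Run7.h742.VI

open MvPolynomial Pool.Agent.TH910.Voj Pool.Agent.H813R3.Voj

/-- distinct hypersurfaces of projective space, irreducible over `ℚ`, none of them the hyperplane
`x 0 = 0` -/
def Comps {n r : ℕ} (F : Fin r → MvPolynomial (Fin (n + 1)) ℤ) (k : Fin r → ℕ) : Prop :=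
  (∀ j, (F j).IsHomogeneous (k j)) ∧ (∀ j, Irreducible (map (Int.castRingHom ℚ) (F j))) ∧
  (∀ i j, i ≠ j →
    ¬ Associated (map (Int.castRingHom ℚ) (F i)) (map (Int.castRingHom ℚ) (F j))) ∧
  ∀ j, ¬ Associated (map (Int.castRingHom ℚ) (F j)) (X 0)

/-- the exceptional points -/
def Bad {n r : ℕ} (F : Fin r → MvPolynomial (Fin (n + 1)) ℤ) (S : Finset ℕ) (θ : ℝ) :
    Set (Fin (n + 1) → ℤ) :=
  {x | (∃ j, eval x (F j) = 0) ∨ logRad S (∏ j, eval x (F j)) < θ * Real.log (Ht x)}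

theorem logRad_nonneg (S : Finset ℕ) (a : ℤ) : 0 ≤ logRad S a :=
  Finset.sum_nonneg fun _ _ => Real.log_natCast_nonneg _

theorem bad_single {n r : ℕ} (hn : 1 ≤ n) (F : Fin r → MvPolynomial (Fin (n + 1)) ℤ)
    (k : Fin r → ℕ) (hF : Comps F k) (S : Finset ℕ) (θ : ℝ)
    (hθ : θ < ∑ j, ((min (k j) 2 : ℕ) : ℝ)) :
    ∃ c : ℝ, 0 < c ∧ ∃ C : ℝ, 0 < C ∧ ∀ B : ℕ, 1 ≤ B → ∀ M : Set ℕ,
      (Set.ncard {x | x ∈ Pts n M B ∧ x ∈ Bad F S θ} : ℝ) ≤
        C * (B : ℝ) ^ (-c) * (Pts n M B).ncard := by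
  classical
  obtain ⟨h1, h2, h3, h4⟩ := hF
  obtain ⟨c, hc, C, hC, hmain⟩ := main_slice hn S F k h1 h2 h3 h4 θ hθ
  obtain ⟨c₁, hc₁, hlow⟩ := Pts_lower hn (half_pos hc)
  refine ⟨c / 2, half_pos hc, C / c₁, by positivity, fun B hB M => ?_⟩
  have hBr : (1 : ℝ) ≤ B := by exact_mod_cast hB
  have hB0 : (0 : ℝ) < B := by linarith
  refine count_of_single B (fun x => x ∈ Bad F S θ) _ (fun m hm hmB => ?_) M
  have e1 : Set.ncard {x | x ∈ Pts n {m} B ∧ x ∈ Bad F S θ} ≤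
      Set.ncard {x | x ∈ box (n + 1) B ∧ x 0 = (m : ℤ) ∧ ((∃ j, eval x (F j) = 0) ∨
      logRad S (∏ j, eval x (F j)) < θ * Real.log B)} := by
    refine Set.ncard_le_ncard ?_ (finite_sub (n + 1) B _)
    rintro x ⟨⟨hx1, hx2, hx3, hx4⟩, hbad⟩
    rw [Set.mem_singleton_iff] at hx3
    refine ⟨mem_box_iff.2 hx4, by omega, ?_⟩
    rcases hbad with h | h
    · exact Or.inl h
    · refine Or.inr (lt_of_lt_of_le h ?_)
      by_cases hθ0 : 0 ≤ θ
      · refine mul_le_mul_of_nonneg_left ?_ hθ0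
        have hH : 1 ≤ Ht x := by
          unfold Ht
          have : (x 0).natAbs ≤ Finset.univ.sup fun j => (x j).natAbs :=
            Finset.le_sup (f := fun j => (x j).natAbs) (Finset.mem_univ 0)
          omega
        exact Real.log_le_log (by exact_mod_cast hH) (by exact_mod_cast hx4)
      · exfalso
        have g1 := logRad_nonneg S (∏ j, eval x (F j))
        have g2 : 0 ≤ Real.log (Ht x) := Real.log_natCast_nonneg _
        have g3 : θ * Real.log (Ht x) ≤ 0 := mul_nonpos_of_nonpos_of_nonneg (by linarith) g2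
        linarith
  have e2 := hmain B hB m (by omega)
  have e3 := hlow B m hm hmB
  have e4 : (Set.ncard {x | x ∈ Pts n {m} B ∧ x ∈ Bad F S θ} : ℝ) ≤ C * (B : ℝ) ^ ((n : ℝ) - c) :=
    le_trans (by exact_mod_cast e1) e2
  refine e4.trans ?_
  have e5 : C * (B : ℝ) ^ ((n : ℝ) - c) =
      C / c₁ * (B : ℝ) ^ (-(c / 2)) * (c₁ * (B : ℝ) ^ ((n : ℝ) - c / 2)) := by
    have e6 : (B : ℝ) ^ ((n : ℝ) - c) = (B : ℝ) ^ (-(c / 2)) * (B : ℝ) ^ ((n : ℝ) - c / 2) := by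
      rw [← Real.rpow_add hB0]; congr 1; ring
    rw [e6]
    field_simp
  rw [e5]
  exact mul_le_mul_of_nonneg_left e3 (by positivity)

theorem universal {n : ℕ} (hn : 1 ≤ n) :
    ∃ E : Set (Fin (n + 1) → ℤ), (∀ ε : ℝ, 0 < ε → ∃ B₀ : ℕ, ∀ B : ℕ, B₀ ≤ B → ∀ M : Set ℕ,
        (Set.ncard {x | x ∈ Pts n M B ∧ x ∈ E} : ℝ) ≤ ε * (Pts n M B).ncard) ∧
      ∀ (r : ℕ) (F : Fin r → MvPolynomial (Fin (n + 1)) ℤ) (k : Fin r → ℕ), Comps F k →
        ∀ (S : Finset ℕ) (θ : ℝ), θ < ∑ j, ((min (k j) 2 : ℕ) : ℝ) → ∃ T : ℕ,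
          ∀ x : Fin (n + 1) → ℤ, x ∈ Bad F S θ → T < Ht x → x ∈ E := by
  classical
  have hcount : Countable (MvPolynomial (Fin (n + 1)) ℤ) := countable_polyZ (n + 1)
  let D := ((r : ℕ) × ((Fin r → MvPolynomial (Fin (n + 1)) ℤ) × (Fin r → ℕ))) × Finset ℕ × ℕ
  have hD : Countable D := by infer_instance
  have hDne : Nonempty D := ⟨(⟨0, Fin.elim0, Fin.elim0⟩, ∅, 0)⟩
  obtain ⟨f, hf⟩ := exists_surjective_nat D
  let th : D → ℝ := fun d => (∑ j, ((min (d.1.2.2 j) 2 : ℕ) : ℝ)) - 1 / ((d.2.2 : ℝ) + 1)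
  let Es : D → Set (Fin (n + 1) → ℤ) := fun d =>
    if Comps d.1.2.1 d.1.2.2 then Bad d.1.2.1 d.2.1 (th d) else ∅
  have hPts : ∀ (M : Set ℕ) (B : ℕ), Pts n M B =
      {x | x ∈ {x : Fin (n + 1) → ℤ | Finset.univ.gcd x = 1 ∧ 0 < x 0 ∧ (x 0).toNat ∈ M} ∧
        Ht x ≤ B} := by
    intro M B
    ext x
    simp only [Pts, Set.mem_ofPred_eq]
    tauto
  obtain ⟨E, hE1, hE2⟩ := diag_dens
    (fun M : Set ℕ => {x : Fin (n + 1) → ℤ | Finset.univ.gcd x = 1 ∧ 0 < x 0 ∧ (x 0).toNat ∈ M})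
    Ht (fun M B => by rw [← hPts]; exact Pts_finite n M B) (fun i => Es (f i)) (by
      intro i ε hε
      by_cases hg : Comps (f i).1.2.1 (f i).1.2.2
      · have e1 : Es (f i) = Bad (f i).1.2.1 (f i).2.1 (th (f i)) := if_pos hg
        have hj : 0 < 1 / (((f i).2.2 : ℝ) + 1) := by positivity
        obtain ⟨c, hc, C, hC, hb⟩ := bad_single hn (f i).1.2.1 (f i).1.2.2 hg (f i).2.1 (th (f i))
          (by show (∑ j, ((min ((f i).1.2.2 j) 2 : ℕ) : ℝ)) - 1 / (((f i).2.2 : ℝ) + 1) < _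
              linarith)
        obtain ⟨B₀, hB₀⟩ : ∃ B₀ : ℕ, ∀ B : ℕ, B₀ ≤ B → C * (B : ℝ) ^ (-c) ≤ ε := by
          have h1 : Filter.Tendsto (fun B : ℕ => C * (B : ℝ) ^ (-c)) Filter.atTop
              (nhds (C * 0)) :=
            ((tendsto_rpow_neg_atTop hc).comp tendsto_natCast_atTop_atTop).const_mul C
          rw [mul_zero] at h1
          exact Filter.eventually_atTop.mp ((h1.eventually_lt_const hε).mono fun B hB => hB.le)
        refine ⟨max B₀ 1, fun B hB M => ?_⟩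
        have h1 := hb B ((le_max_right _ _).trans hB) M
        rw [e1]
        rw [← hPts M B]
        have h2 : {x | (x ∈ {x : Fin (n + 1) → ℤ | Finset.univ.gcd x = 1 ∧ 0 < x 0 ∧
            (x 0).toNat ∈ M} ∧ Ht x ≤ B) ∧ x ∈ Bad (f i).1.2.1 (f i).2.1 (th (f i))} =
            {x | x ∈ Pts n M B ∧ x ∈ Bad (f i).1.2.1 (f i).2.1 (th (f i))} := by
          rw [hPts M B]; rfl
        rw [h2]
        refine h1.trans (mul_le_mul_of_nonneg_right ?_ (Nat.cast_nonneg _))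
        exact hB₀ B ((le_max_left _ _).trans hB)
      · have e1 : Es (f i) = ∅ := if_neg hg
        refine ⟨0, fun B _ M => ?_⟩
        rw [e1]
        simp only [Set.mem_empty_iff_false, and_false, Set.ofPred_false, Set.ncard_empty,
          Nat.cast_zero]
        positivity)
  refine ⟨E, fun ε hε => ?_, fun r F k hF S θ hθ => ?_⟩
  · obtain ⟨B₀, hB₀⟩ := hE1 ε hε
    refine ⟨B₀, fun B hB M => ?_⟩
    have h1 := hB₀ B hB M
    rw [← hPts M B] at h1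
    have h2 : {x | (x ∈ {x : Fin (n + 1) → ℤ | Finset.univ.gcd x = 1 ∧ 0 < x 0 ∧
        (x 0).toNat ∈ M} ∧ Ht x ≤ B) ∧ x ∈ E} = {x | x ∈ Pts n M B ∧ x ∈ E} := by
      rw [hPts M B]; rfl
    rw [h2] at h1
    exact h1
  · obtain ⟨j, hj⟩ : ∃ j : ℕ, 1 / ((j : ℝ) + 1) < (∑ j, ((min (k j) 2 : ℕ) : ℝ)) - θ :=
      exists_nat_one_div_lt (by linarith)
    obtain ⟨i, hi⟩ := hf (⟨r, F, k⟩, S, j)
    obtain ⟨T, hT⟩ := hE2 i
    rw [hi] at hT
    have e1 : Es (⟨r, F, k⟩, S, j) = Bad F S ((∑ j, ((min (k j) 2 : ℕ) : ℝ)) - 1 / ((j : ℝ) + 1)) :=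
      if_pos hF
    rw [e1] at hT
    refine ⟨T, fun x hx hTx => hT x ?_ hTx⟩
    rcases hx with h | h
    · exact Or.inl h
    · refine Or.inr (lt_of_lt_of_le h ?_)
      exact mul_le_mul_of_nonneg_right (by linarith) (Real.log_natCast_nonneg _)

end Run7.h742.VI
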