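import Mathlib
import Pool.Agent.N445.VW.Bp2
import Pool.Agent.N445.VW.SpB

/-!
# The determinant method in an arithmetic progression (helper742)
-/

set_option autoImplicit false

namespace Run7.h742.VI

open Polynomial Pool.Agent.N445.VW

/-- A polynomial on an arithmetic progression. -/
theorem exists_comp (f : ℤ[X]) (s t₀ : ℤ) (h : s ∣ f.eval t₀) :
    ∃ g : ℤ[X], C s * g = f.comp (C t₀ + C s * X) := by
  have h1 : (C t₀ + C s * X) - C t₀ ∣ (f.map C).eval (C t₀ + C s * X) - (f.map C).eval (C t₀) :=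
    Polynomial.sub_dvd_eval_sub _ _ _
  rw [add_sub_cancel_left, Polynomial.eval_map, Polynomial.eval_map] at h1
  have h2 : f.eval₂ C (C t₀) = C (f.eval t₀) := by
    rw [← Polynomial.comp, Polynomial.comp_C]
  rw [h2] at h1
  have h3 : C s ∣ f.eval₂ C (C t₀ + C s * X) - C (f.eval t₀) := (Dvd.intro X rfl).trans h1
  have h4 : C s ∣ C (f.eval t₀) := by
    obtain ⟨c, hc⟩ := h
    exact ⟨C c, by rw [hc, C_mul]⟩
  have h5 := dvd_add h3 h4
  rw [sub_add_cancel] at h5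
  obtain ⟨g, hg⟩ := h5
  exact ⟨g, hg.symm⟩

theorem comp_eval (f g : ℤ[X]) (s t₀ : ℤ) (hg : C s * g = f.comp (C t₀ + C s * X)) (u : ℤ) :
    s * g.eval u = f.eval (t₀ + s * u) := by
  have := congrArg (fun p : ℤ[X] => p.eval u) hg
  simpa [Polynomial.eval_comp] using this

theorem comp_derivative (f g : ℤ[X]) (s t₀ : ℤ) (hs : s ≠ 0)
    (hg : C s * g = f.comp (C t₀ + C s * X)) : derivative g = (derivative f).comp (C t₀ + C s * X) := by
  have h1 := congrArg derivative hg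
  rw [derivative_mul, derivative_C, zero_mul, zero_add, derivative_comp] at h1
  have h2 : derivative (C t₀ + C s * X) = C s := by simp
  rw [h2] at h1
  exact mul_left_cancel₀ (by rwa [Ne, C_eq_zero]) h1

theorem comp_natDegree (f g : ℤ[X]) (s t₀ : ℤ) (hs : s ≠ 0)
    (hg : C s * g = f.comp (C t₀ + C s * X)) : g.natDegree = f.natDegree := by
  have h1 := congrArg natDegree hg
  rw [natDegree_C_mul hs, natDegree_comp] at h1
  have h2 : (C t₀ + C s * X : ℤ[X]).natDegree = 1 := by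
    rw [add_comm]
    exact natDegree_linear hs
  rw [h2, mul_one] at h1
  exact h1

theorem comp_separable (f g : ℤ[X]) (s t₀ : ℤ) (hs : s ≠ 0)
    (hg : C s * g = f.comp (C t₀ + C s * X)) (hsep : (f.map (Int.castRingHom ℚ)).Separable) :
    (g.map (Int.castRingHom ℚ)).Separable := by
  have hd := comp_derivative f g s t₀ hs hg
  rw [Polynomial.separable_def', derivative_map] at hsep ⊢
  obtain ⟨U, V, h⟩ := hsep
  set q : ℚ[X] := (C t₀ + C s * X : ℤ[X]).map (Int.castRingHom ℚ) with hq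
  have h1 := congrArg (fun p : ℚ[X] => p.comp q) h
  simp only [add_comp, mul_comp, one_comp] at h1
  have h2 : (f.map (Int.castRingHom ℚ)).comp q = C (s : ℚ) * g.map (Int.castRingHom ℚ) := by
    rw [hq, ← Polynomial.map_comp, ← hg, Polynomial.map_mul, Polynomial.map_C]
    rfl
  have h3 : ((derivative f).map (Int.castRingHom ℚ)).comp q =
      (derivative g).map (Int.castRingHom ℚ) := by
    rw [hq, ← Polynomial.map_comp, hd]
  rw [h2, h3] at h1
  exact ⟨U.comp q * C (s : ℚ), V.comp q, by rw [← h1]; ring⟩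

/-- **The number of integral points of `s' z ^ e = f (t)` in one residue class modulo `s`.** -/
theorem bp_class (e : ℕ) (he : 2 ≤ e) (k : ℕ) (hk : 1 ≤ k) (A : ℕ) (δ : ℝ) (hδ : 0 < δ) :
    ∃ C : ℝ, 0 < C ∧ ∀ B : ℕ, 2 ≤ B → ∀ f : ℤ[X], f.natDegree = k →
      (f.map (Int.castRingHom ℚ)).Separable → ∀ s : ℕ, 1 ≤ s → (s : ℝ) ≤ (B : ℝ) ^ (1 - δ) →
      ∀ τ : ℤ, τ ≠ 0 → ∀ N : ℕ, 1 ≤ N → N ≤ B ^ A → ∀ T : Finset ℤ,
      (∀ t ∈ T, |t| ≤ B ∧ ∃ w : ℤ, |w| ≤ (B : ℤ) ^ A ∧ f.eval t = τ * s * w ^ e) →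
      (∀ t ∈ T, ∀ t' ∈ T, (s : ℤ) ∣ t' - t) →
      (∀ q : ℕ, q.Prime → ¬ q ∣ N → ¬ (q : ℤ) ∣ τ ∧ ¬ q ∣ e ∧
        ∀ t ∈ T, (q : ℤ) ∣ f.eval t → ¬ (q : ℤ) ∣ (derivative f).eval t) →
      (T.card : ℝ) ≤ C * ((B : ℝ) / s) * (B : ℝ) ^ (-(δ / 4)) := by
  obtain ⟨J, hJ⟩ := exists_nat_ge (1 / δ)
  obtain ⟨C1, hC1, hbp⟩ := bp2 e (by omega) k hk (J * A) (1 / 4) (by norm_num)
  refine ⟨3 * C1, by positivity, ?_⟩
  intro B hB f hfk hsep s hs hsB τ hτ N hN hNA T hT hcl hq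
  have hB1 : (1 : ℝ) ≤ B := by exact_mod_cast (by omega : 1 ≤ B)
  have hBpos : (0 : ℝ) < B := by linarith
  have hs0 : (0 : ℝ) < s := by exact_mod_cast hs
  rcases T.eq_empty_or_nonempty with hemp | ⟨t₀, ht₀⟩
  · rw [hemp, Finset.card_empty, Nat.cast_zero]; positivity
  obtain ⟨ht₀B, w₀, -, hw₀⟩ := hT t₀ ht₀
  obtain ⟨g, hg⟩ := exists_comp f s t₀ (by rw [hw₀]; exact ⟨τ * w₀ ^ e, by ring⟩)
  have hsZ : (s : ℤ) ≠ 0 := by exact_mod_cast (by omega : s ≠ 0)
  have hsZ0 : (0 : ℤ) < s := by exact_mod_cast hs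
  have hsB' : (s : ℝ) ≤ B := by
    refine hsB.trans ?_
    conv_rhs => rw [← Real.rpow_one (B : ℝ)]
    exact Real.rpow_le_rpow_of_exponent_le hB1 (by linarith)
  have hsBn : s ≤ B := by exact_mod_cast hsB'
  set B' := 2 * B / s + 1 with hB'
  have hB'3 : 3 ≤ B' := by
    have : 2 ≤ 2 * B / s := by
      rw [Nat.le_div_iff_mul_le (by omega)]
      omega
    omega
  have hB'up : (B' : ℝ) ≤ 3 * (B / s) := by
    have h1 : ((2 * B / s : ℕ) : ℝ) ≤ 2 * (B / s) := by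
      refine Nat.cast_div_le.trans ?_
      push_cast
      rw [mul_div_assoc]
    have h2 : 1 ≤ (B : ℝ) / s := by rwa [le_div_iff₀ hs0, one_mul]
    rw [hB']
    push_cast
    push_cast at h1
    linarith
  have hB'low : (B : ℝ) ^ δ ≤ B' := by
    have h1 : (B : ℝ) ^ δ ≤ B / s := by
      rw [le_div_iff₀ hs0]
      calc (B : ℝ) ^ δ * s ≤ (B : ℝ) ^ δ * (B : ℝ) ^ (1 - δ) :=
            mul_le_mul_of_nonneg_left hsB (by positivity)
        _ = B := by rw [← Real.rpow_add hBpos]; simp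
    have h2 : (B : ℝ) / s ≤ B' := by
      have h3 : (2 * B : ℕ) < s * B' := by
        rw [hB']
        exact Nat.lt_mul_div_succ _ (by omega)
      have h4 : (2 * B : ℝ) < s * B' := by exact_mod_cast h3
      rw [div_le_iff₀ hs0]
      linarith
    linarith
  have hB'1 : (1 : ℝ) ≤ B' := by exact_mod_cast (by omega : 1 ≤ B')
  have hBB' : ∀ m : ℕ, (B : ℝ) ^ m ≤ (B' : ℝ) ^ (J * m) := by
    intro m
    rw [pow_mul]
    refine pow_le_pow_left₀ hBpos.le ?_ m
    have h1 : (B : ℝ) = ((B : ℝ) ^ δ) ^ (1 / δ) := by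
      rw [← Real.rpow_mul hBpos.le]
      rw [mul_one_div_cancel hδ.ne', Real.rpow_one]
    rw [h1]
    calc ((B : ℝ) ^ δ) ^ (1 / δ) ≤ (B' : ℝ) ^ (1 / δ) :=
          Real.rpow_le_rpow (by positivity) hB'low (by positivity)
      _ ≤ (B' : ℝ) ^ (J : ℝ) := Real.rpow_le_rpow_of_exponent_le hB'1 hJ
      _ = _ := Real.rpow_natCast _ _
  have hnat : B ^ A ≤ B' ^ (J * A) := by exact_mod_cast hBB' A
  set U : Finset ℤ := T.image fun t => (t - t₀) / s with hU
  have hdiv : ∀ t ∈ T, t₀ + s * ((t - t₀) / s) = t := by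
    intro t ht
    rw [Int.mul_ediv_cancel' (hcl t₀ ht₀ t ht)]
    ring
  have hcard : U.card = T.card := by
    refine Finset.card_image_of_injOn ?_
    intro t ht t' ht' htt'
    simp only at htt'
    rw [← hdiv t ht, ← hdiv t' ht', htt']
  have hgd := comp_natDegree f g s t₀ hsZ hg
  have key := hbp B' (by omega) g (by rw [hgd, hfk]; exact hk) (by rw [hgd, hfk])
    (comp_separable f g s t₀ hsZ hg hsep) τ hτ N hN (by
      rw [Real.rpow_natCast]
      exact_mod_cast hNA.trans hnat) U ?_ ?_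
  · rw [hcard] at key
    refine key.trans ?_
    have he2 : (2 : ℝ) ≤ e := by exact_mod_cast he
    have h1 : (B' : ℝ) ^ (1 / (e : ℝ) + 1 / 4) ≤ (B' : ℝ) ^ ((3 : ℝ) / 4) := by
      refine Real.rpow_le_rpow_of_exponent_le hB'1 ?_
      have : 1 / (e : ℝ) ≤ 1 / 2 := one_div_le_one_div_of_le (by norm_num) he2
      linarith
    have h2 : (B' : ℝ) ^ ((3 : ℝ) / 4) = B' * (B' : ℝ) ^ (-((1 : ℝ) / 4)) := by
      have h5 : (B' : ℝ) * (B' : ℝ) ^ (-((1 : ℝ) / 4)) =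
          (B' : ℝ) ^ (1 : ℝ) * (B' : ℝ) ^ (-((1 : ℝ) / 4)) := by rw [Real.rpow_one]
      rw [h5, ← Real.rpow_add (by linarith)]
      norm_num
    have h3 : (B' : ℝ) ^ (-((1 : ℝ) / 4)) ≤ (B : ℝ) ^ (-(δ / 4)) := by
      have h4 : (B : ℝ) ^ (-(δ / 4)) = ((B : ℝ) ^ δ) ^ (-((1 : ℝ) / 4)) := by
        rw [← Real.rpow_mul hBpos.le]; congr 1; ring
      rw [h4]
      exact Real.rpow_le_rpow_of_nonpos (by positivity) hB'low (by norm_num)
    calc C1 * (B' : ℝ) ^ (1 / (e : ℝ) + 1 / 4) ≤ C1 * (B' * (B' : ℝ) ^ (-((1 : ℝ) / 4))) := by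
          rw [← h2]; exact mul_le_mul_of_nonneg_left h1 hC1.le
      _ ≤ C1 * ((3 * (B / s)) * (B : ℝ) ^ (-(δ / 4))) := by
          refine mul_le_mul_of_nonneg_left ?_ hC1.le
          exact mul_le_mul hB'up h3 (by positivity) (by positivity)
      _ = _ := by ring
  · intro u hu
    rw [hU, Finset.mem_image] at hu
    obtain ⟨t, ht, rfl⟩ := hu
    obtain ⟨htB, w, hwB, hw⟩ := hT t ht
    have hdt := hdiv t ht
    refine ⟨?_, w, ?_, ?_⟩
    · have h1 : |(s : ℤ) * ((t - t₀) / s)| ≤ 2 * B := by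
        have h2 : (s : ℤ) * ((t - t₀) / s) = t - t₀ := by linarith
        rw [h2]
        calc |t - t₀| ≤ |t| + |t₀| := abs_sub _ _
          _ ≤ _ := by linarith
      rw [abs_mul, abs_of_pos hsZ0] at h1
      have h3 : |(t - t₀) / (s : ℤ)| ≤ ((2 * B / s : ℕ) : ℤ) := by
        push_cast
        rw [Int.le_ediv_iff_mul_le hsZ0]
        linarith
      rw [hB']
      push_cast at h3 ⊢
      linarith
    · refine hwB.trans ?_
      exact_mod_cast hnat
    · have h1 := comp_eval f g s t₀ hg ((t - t₀) / s)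
      rw [hdt, hw] at h1
      have h2 : (s : ℤ) * (g.eval ((t - t₀) / s)) = s * (τ * w ^ e) := by rw [h1]; ring
      exact (mul_left_cancel₀ hsZ h2).symm
  · intro q hqp hqN
    obtain ⟨h1, h2, h3⟩ := hq q hqp hqN
    refine ⟨h1, h2, ?_⟩
    intro u hu
    rw [hU, Finset.mem_image] at hu
    obtain ⟨t, ht, rfl⟩ := hu
    intro h4 h5
    have hdt := hdiv t ht
    refine h3 t ht ?_ ?_
    · rw [← hdt, ← comp_eval f g s t₀ hg]
      exact h4.mul_left _
    · rw [comp_derivative f g s t₀ hsZ hg, Polynomial.eval_comp] at h5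
      have h6 : (C t₀ + C (s : ℤ) * X : ℤ[X]).eval ((t - t₀) / (s : ℤ)) = t := by
        conv_rhs => rw [← hdt]
        simp
      rw [h6] at h5
      exact h5

end Run7.h742.VI
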