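import Mathlib
import Pool.Agent.N445.VW.Fib

/-!
# Elimination of a variable: homogeneous form (helper742)
-/

set_option autoImplicit false

namespace Run7.h742.VI

open MvPolynomial Pool.Agent.TH910.Voj Pool.Agent.H813R3.Voj Pool.Agent.N445.VW

theorem lin_isHomogeneous {n : ℕ} (a : Fin n → ℤ) (i₀ i : Fin n) :
    (lin a i₀ i).IsHomogeneous 1 := by
  unfold lin
  refine IsHomogeneous.sub ?_ ?_
  · have := (isHomogeneous_C (Fin n) (a i₀)).mul (isHomogeneous_X ℤ i)
    rwa [zero_add] at this
  · have := (isHomogeneous_C (Fin n) (a i)).mul (isHomogeneous_X ℤ i₀)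
    rwa [zero_add] at this

theorem bind_isHomogeneous {n : ℕ} (a : Fin n → ℤ) (i₀ : Fin n) (p : MvPolynomial (Fin n) ℤ)
    {d : ℕ} (hp : p.IsHomogeneous d) : (bind₁ (lin a i₀) p).IsHomogeneous d := by
  have := hp.aeval (g := lin a i₀) (n := 1) (fun i => lin_isHomogeneous a i₀ i)
  rwa [one_mul] at this

/-- The homogeneous components of a sum of homogeneous polynomials of different degrees. -/
theorem component_sum {n : ℕ} (N d j : ℕ) (P : ℕ → MvPolynomial (Fin n) ℤ)
    (hP : ∀ i, (P i).IsHomogeneous (i + j)) :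
    homogeneousComponent d (∑ i ∈ Finset.range N, P i) =
      if j ≤ d ∧ d - j < N then P (d - j) else 0 := by
  rw [map_sum]
  have h1 : ∀ i ∈ Finset.range N, homogeneousComponent d (P i) = if i + j = d then P i else 0 := by
    intro i _
    rw [homogeneousComponent_of_mem ((mem_homogeneousSubmodule _ _).2 (hP i))]
    by_cases h : i + j = d
    · rw [if_pos h.symm, if_pos h]
    · rw [if_neg (Ne.symm h), if_neg h]
  rw [Finset.sum_congr rfl h1]
  by_cases h : j ≤ d ∧ d - j < N
  · rw [if_pos h, Finset.sum_eq_single (d - j)]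
    · rw [if_pos (by omega)]
    · intro i _ hi
      rw [if_neg (by omega)]
    · intro hi
      exact absurd (Finset.mem_range.2 h.2) hi
  · rw [if_neg h]
    refine Finset.sum_eq_zero fun i hi => ?_
    rw [Finset.mem_range] at hi
    rw [if_neg (by omega)]

/-- **Elimination**: as in `Pool.Agent.TH910.Voj.elimination`, for forms, and the eliminating
polynomial is a form too. -/
theorem elimination_hom {n : ℕ} (F G : MvPolynomial (Fin n) ℤ) {k g : ℕ} (hk : F.IsHomogeneous k)
    (hg : G.IsHomogeneous g) (hF : Irreducible (toQ F)) (hG : ¬ toQ F ∣ toQ G) (a : Fin n → ℤ)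
    (i₀ : Fin n) (hFa : eval a F ≠ 0) (ha : a i₀ ≠ 0) :
    ∃ (d : ℕ) (r U V : MvPolynomial (Fin n) ℤ), r.IsHomogeneous d ∧
      bind₁ (lin a i₀) r = U * F + V * G ∧ bind₁ (lin a i₀) r ≠ 0 := by
  classical
  obtain ⟨r, U, V, h1, h2⟩ := elimination F G hk hF hG a i₀ hFa ha
  have h3 : ∃ d, homogeneousComponent d (bind₁ (lin a i₀) r) ≠ 0 := by
    by_contra hcon
    push Not at hcon
    apply h2
    rw [← sum_homogeneousComponent (bind₁ (lin a i₀) r)]
    exact Finset.sum_eq_zero fun i _ => hcon i
  obtain ⟨d, hd⟩ := h3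
  have hr : homogeneousComponent d (bind₁ (lin a i₀) r) =
      bind₁ (lin a i₀) (homogeneousComponent d r) := by
    conv_lhs => rw [← sum_homogeneousComponent r, map_sum]
    rw [component_sum (r.totalDegree + 1) d 0 (fun i => bind₁ (lin a i₀) (homogeneousComponent i r))
      (fun i => bind_isHomogeneous a i₀ _ (homogeneousComponent_isHomogeneous i r))]
    by_cases h : 0 ≤ d ∧ d - 0 < r.totalDegree + 1
    · rw [if_pos h]; rfl
    · rw [if_neg h, homogeneousComponent_eq_zero d r (by omega), map_zero]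
  have hmul : ∀ (P Q : MvPolynomial (Fin n) ℤ) (j : ℕ), Q.IsHomogeneous j →
      ∃ P' : MvPolynomial (Fin n) ℤ, homogeneousComponent d (P * Q) = P' * Q := by
    intro P Q j hQ
    have h4 : P * Q = ∑ i ∈ Finset.range (P.totalDegree + 1), homogeneousComponent i P * Q := by
      rw [← Finset.sum_mul, sum_homogeneousComponent]
    rw [h4, component_sum (P.totalDegree + 1) d j (fun i => homogeneousComponent i P * Q)
      (fun i => (homogeneousComponent_isHomogeneous i P).mul hQ)]
    by_cases h : j ≤ d ∧ d - j < P.totalDegree + 1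
    · rw [if_pos h]; exact ⟨_, rfl⟩
    · rw [if_neg h]; exact ⟨0, by rw [zero_mul]⟩
  obtain ⟨U', hU'⟩ := hmul U F k hk
  obtain ⟨V', hV'⟩ := hmul V G g hg
  refine ⟨d, homogeneousComponent d r, U', V', homogeneousComponent_isHomogeneous d r, ?_, ?_⟩
  · rw [← hr, h1, map_add, hU', hV']
  · rw [← hr]; exact hd

end Run7.h742.VI
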