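import Mathlib
import Pool.Agent.N445.VW.SpA

/-!
# Sparse sets of integer vectors in the slices of a box (helper742)

The slices are the sets of the vectors whose coordinate with number `0` is a given nonzero number.
-/

set_option autoImplicit false

namespace Run7.h742.VI

open MvPolynomial Pool.Agent.TH910.Voj Pool.Agent.H813R3.Voj

/-- A property is sparse in the slices `x 0 = m`, `m ≠ 0`, uniformly in `m`. -/
def SSparse (n : ℕ) (bad : ℕ → (Fin (n + 1) → ℤ) → Prop) : Prop :=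
  ∃ c : ℝ, 0 < c ∧ ∃ C : ℝ, 0 < C ∧ ∀ B : ℕ, 1 ≤ B → ∀ m : ℤ, m ≠ 0 →
    (Set.ncard {x | x ∈ box (n + 1) B ∧ x 0 = m ∧ bad B x} : ℝ) ≤ C * (B : ℝ) ^ ((n : ℝ) - c)

theorem SSparse.mono {n : ℕ} {P Q : ℕ → (Fin (n + 1) → ℤ) → Prop} (h : SSparse n Q)
    (hPQ : ∀ B x, 1 ≤ B → x ∈ box (n + 1) B → x 0 ≠ 0 → P B x → Q B x) : SSparse n P := by
  obtain ⟨c, hc, C, hC, h⟩ := h
  refine ⟨c, hc, C, hC, fun B hB m hm => le_trans ?_ (h B hB m hm)⟩
  exact_mod_cast Set.ncard_le_ncard (s := {x | x ∈ box (n + 1) B ∧ x 0 = m ∧ P B x})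
    (t := {x | x ∈ box (n + 1) B ∧ x 0 = m ∧ Q B x})
    (fun x hx => ⟨hx.1, hx.2.1, hPQ B x hB hx.1 (by rw [hx.2.1]; exact hm) hx.2.2⟩)
    (finite_sub (n + 1) B _)

theorem SSparse.or {n : ℕ} {P Q : ℕ → (Fin (n + 1) → ℤ) → Prop} (hP : SSparse n P)
    (hQ : SSparse n Q) : SSparse n (fun B x => P B x ∨ Q B x) := by
  obtain ⟨c, hc, C, hC, h⟩ := hP
  obtain ⟨c', hc', C', hC', h'⟩ := hQ
  refine ⟨min c c', lt_min hc hc', C + C', by positivity, fun B hB m hm => ?_⟩
  have hB1 : (1 : ℝ) ≤ B := by exact_mod_cast hB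
  have h1 : (Set.ncard {x | x ∈ box (n + 1) B ∧ x 0 = m ∧ (P B x ∨ Q B x)} : ℝ) ≤
      Set.ncard {x | x ∈ box (n + 1) B ∧ x 0 = m ∧ P B x} +
        Set.ncard {x | x ∈ box (n + 1) B ∧ x 0 = m ∧ Q B x} := by
    have h2 : {x | x ∈ box (n + 1) B ∧ x 0 = m ∧ (P B x ∨ Q B x)} =
        {x | x ∈ box (n + 1) B ∧ x 0 = m ∧ P B x} ∪
          {x | x ∈ box (n + 1) B ∧ x 0 = m ∧ Q B x} := by
      ext x; simp only [Set.mem_ofPred_eq, Set.mem_union]; tauto
    rw [h2]
    exact_mod_cast Set.ncard_union_le _ _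
  refine h1.trans ?_
  rw [add_mul]
  refine add_le_add ((h B hB m hm).trans ?_) ((h' B hB m hm).trans ?_)
  · refine mul_le_mul_of_nonneg_left (Real.rpow_le_rpow_of_exponent_le hB1 ?_) hC.le
    linarith [min_le_left c c']
  · refine mul_le_mul_of_nonneg_left (Real.rpow_le_rpow_of_exponent_le hB1 ?_) hC'.le
    linarith [min_le_right c c']

theorem SSparse.false (n : ℕ) : SSparse n (fun _ _ => False) := by
  refine ⟨1, one_pos, 1, one_pos, fun B hB m _ => ?_⟩
  simp only [and_false, Set.ofPred_false, Set.ncard_empty, Nat.cast_zero]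
  positivity

theorem SSparse.exists_fin {n q : ℕ} {P : Fin q → ℕ → (Fin (n + 1) → ℤ) → Prop}
    (h : ∀ j, SSparse n (P j)) : SSparse n (fun B x => ∃ j, P j B x) := by
  classical
  have key : ∀ s : Finset (Fin q), SSparse n (fun B x => ∃ j ∈ s, P j B x) := by
    intro s
    induction s using Finset.induction_on with
    | empty => exact (SSparse.false n).mono (by simp)
    | insert a s _ ih =>
      refine ((h a).or ih).mono ?_
      rintro B x - - - ⟨j, hj, hjx⟩
      rcases Finset.mem_insert.mp hj with rfl | hj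
      · exact Or.inl hjx
      · exact Or.inr ⟨j, hj, hjx⟩
  refine (key Finset.univ).mono ?_
  rintro B x - - - ⟨j, hj⟩
  exact ⟨j, Finset.mem_univ j, hj⟩

/-- the number of vectors in a slice -/
theorem card_slice (n B : ℕ) (m : ℤ) :
    (Set.ncard {x : Fin (n + 1) → ℤ | x ∈ box (n + 1) B ∧ x 0 = m} : ℝ) ≤ (2 * B + 1 : ℝ) ^ n := by
  classical
  have h1 : Set.ncard {x : Fin (n + 1) → ℤ | x ∈ box (n + 1) B ∧ x 0 = m} ≤
      (box n B : Set (Fin n → ℤ)).ncard := by
    refine Set.ncard_le_ncard_of_injOn (fun x i => x i.succ) ?_ ?_ (box n B).finite_toSet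
    · rintro x ⟨hx, -⟩
      rw [Finset.mem_coe, mem_box]
      exact fun i => mem_box.mp hx i.succ
    · rintro x ⟨-, hx⟩ x' ⟨-, hx'⟩ h
      funext i
      refine Fin.cases (by rw [hx, hx']) (fun j => ?_) i
      exact congrFun h j
  rw [Set.ncard_coe_finset, card_box] at h1
  exact_mod_cast h1

theorem SSparse.of_eventually {n : ℕ} {P Q : ℕ → (Fin (n + 1) → ℤ) → Prop} (h : SSparse n Q)
    (B₀ : ℕ) (hPQ : ∀ B x, B₀ ≤ B → 1 ≤ B → x ∈ box (n + 1) B → x 0 ≠ 0 → P B x → Q B x) :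
    SSparse n P := by
  obtain ⟨c, hc, C, hC, h⟩ := h
  refine ⟨c, hc, C + 3 ^ n * (B₀ + 1 : ℝ) ^ c, by positivity, fun B hB m hm => ?_⟩
  have hB1 : (1 : ℝ) ≤ B := by exact_mod_cast hB
  have hB0 : (0 : ℝ) < B := by linarith
  have hpos : 0 ≤ (B : ℝ) ^ ((n : ℝ) - c) := by positivity
  by_cases hBB : B₀ ≤ B
  · have h1 : (Set.ncard {x | x ∈ box (n + 1) B ∧ x 0 = m ∧ P B x} : ℝ) ≤
        Set.ncard {x | x ∈ box (n + 1) B ∧ x 0 = m ∧ Q B x} := by
      exact_mod_cast Set.ncard_le_ncard (s := {x | x ∈ box (n + 1) B ∧ x 0 = m ∧ P B x})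
        (t := {x | x ∈ box (n + 1) B ∧ x 0 = m ∧ Q B x})
        (fun x hx => ⟨hx.1, hx.2.1, hPQ B x hBB hB hx.1 (by rw [hx.2.1]; exact hm) hx.2.2⟩)
        (finite_sub (n + 1) B _)
    refine h1.trans ((h B hB m hm).trans ?_)
    refine mul_le_mul_of_nonneg_right ?_ hpos
    have : 0 ≤ 3 ^ n * (B₀ + 1 : ℝ) ^ c := by positivity
    linarith
  · have h1 : (Set.ncard {x | x ∈ box (n + 1) B ∧ x 0 = m ∧ P B x} : ℝ) ≤ (2 * B + 1 : ℝ) ^ n := by
      have h2 : Set.ncard {x | x ∈ box (n + 1) B ∧ x 0 = m ∧ P B x} ≤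
          Set.ncard {x : Fin (n + 1) → ℤ | x ∈ box (n + 1) B ∧ x 0 = m} :=
        Set.ncard_le_ncard (fun x hx => ⟨hx.1, hx.2.1⟩) (finite_sub (n + 1) B _)
      exact le_trans (by exact_mod_cast h2) (card_slice n B m)
    refine h1.trans ?_
    have h2 : (2 * B + 1 : ℝ) ^ n ≤ 3 ^ n * (B : ℝ) ^ (n : ℝ) := by
      rw [Real.rpow_natCast, ← mul_pow]
      gcongr
      linarith
    have h3 : (B : ℝ) ^ (n : ℝ) = (B : ℝ) ^ c * (B : ℝ) ^ ((n : ℝ) - c) := by
      rw [← Real.rpow_add hB0]; congr 1; ring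
    have h4 : (B : ℝ) ^ c ≤ (B₀ + 1 : ℝ) ^ c := by
      refine Real.rpow_le_rpow hB0.le ?_ hc.le
      have : (B : ℝ) ≤ B₀ := by exact_mod_cast (not_le.mp hBB).le
      linarith
    refine h2.trans ?_
    rw [h3, ← mul_assoc]
    refine mul_le_mul_of_nonneg_right ?_ hpos
    have h5 : (3 : ℝ) ^ n * (B : ℝ) ^ c ≤ 3 ^ n * (B₀ + 1 : ℝ) ^ c :=
      mul_le_mul_of_nonneg_left h4 (by positivity)
    linarith

/-- A set of vectors is sparse in the slices if it has few points on the lines in a fixed direction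
which is parallel to the slices. -/
theorem sparse_of_fibres {n : ℕ} (a : Fin (n + 1) → ℤ) (i₀ : Fin (n + 1)) (ha : a i₀ ≠ 0)
    (ha0 : a 0 = 0) (bad : ℕ → (Fin (n + 1) → ℤ) → Prop) (B₀ : ℕ) (C e : ℝ) (he : 0 < e)
    (hC : 0 ≤ C)
    (h : ∀ B : ℕ, B₀ ≤ B → 1 ≤ B → ∀ (y : Fin (n + 1) → ℤ) (T : Finset ℤ),
      (∀ t ∈ T, ∃ x ∈ box (n + 1) B, x 0 ≠ 0 ∧ bad B x ∧ x i₀ = t ∧
        (fun i => a i₀ * x i - a i * x i₀) = y) → (T.card : ℝ) ≤ C * (B : ℝ) ^ (1 - e)) :
    SSparse n bad := by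
  classical
  have hi₀ : i₀ ≠ 0 := by rintro rfl; exact ha ha0
  have hn1 : 1 ≤ n := by
    by_contra hcon
    have : n = 0 := by omega
    subst this
    exact hi₀ (Fin.ext (by omega))
  have h1 : SSparse n (fun B x => B₀ ≤ B ∧ bad B x) := by
    refine ⟨e, he, C * (3 * cdir a i₀ : ℝ) ^ (n - 1) + 1, by positivity, fun B hB m hm => ?_⟩
    have hB1 : (1 : ℝ) ≤ B := by exact_mod_cast hB
    have hBpos : (0 : ℝ) < B := by linarith
    set X := (box (n + 1) B).filter (fun x => x 0 = m ∧ (B₀ ≤ B ∧ bad B x)) with hX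
    have hXcard : (Set.ncard {x | x ∈ box (n + 1) B ∧ x 0 = m ∧ (B₀ ≤ B ∧ bad B x)} : ℝ) =
        X.card := by
      rw [← Set.ncard_coe_finset]
      congr 2
      ext x; simp [hX]
    rw [hXcard]
    by_cases hBB : B₀ ≤ B
    swap
    · have : X = ∅ := by
        rw [hX]
        exact Finset.filter_eq_empty_iff.2 fun x _ hx => hBB hx.2.1
      rw [this, Finset.card_empty, Nat.cast_zero]
      positivity
    set φ : (Fin (n + 1) → ℤ) → (Fin (n + 1) → ℤ) := fun x i => a i₀ * x i - a i * x i₀ with hφ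
    set Y : Finset (Fin (n + 1) → ℤ) := Fintype.piFinset fun i => if i = i₀ then {0} else
      if i = 0 then {a i₀ * m} else Finset.Icc (-((cdir a i₀ * B : ℕ) : ℤ)) (cdir a i₀ * B : ℕ)
      with hY
    have hYcard : Y.card = (2 * (cdir a i₀ * B) + 1) ^ (n - 1) := by
      rw [hY, Fintype.card_piFinset, ← Finset.mul_prod_erase Finset.univ _ (Finset.mem_univ i₀)]
      have h0m : (0 : Fin (n + 1)) ∈ Finset.univ.erase i₀ :=
        Finset.mem_erase.mpr ⟨hi₀.symm, Finset.mem_univ _⟩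
      rw [← Finset.mul_prod_erase _ _ h0m]
      simp only [if_true, Finset.card_singleton, one_mul]
      rw [if_neg hi₀.symm, Finset.card_singleton, one_mul,
        Finset.prod_congr rfl (g := fun _ => 2 * (cdir a i₀ * B) + 1)]
      · rw [Finset.prod_const, Finset.card_erase_of_mem h0m,
          Finset.card_erase_of_mem (Finset.mem_univ _), Finset.card_univ, Fintype.card_fin]
        rfl
      · intro i hi
        rw [Finset.mem_erase, Finset.mem_erase] at hi
        rw [if_neg hi.2.1, if_neg hi.1, card_Icc_int]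
    have hmaps : ∀ x ∈ X, φ x ∈ Y := by
      intro x hx
      rw [hX, Finset.mem_filter] at hx
      have h2 := mem_ybox_of_box a i₀ B x hx.1
      unfold ybox at h2
      rw [Fintype.mem_piFinset] at h2
      rw [hY, Fintype.mem_piFinset]
      intro i
      have h3 := h2 i
      by_cases hi : i = i₀
      · rw [if_pos hi] at h3 ⊢; exact h3
      · rw [if_neg hi] at h3 ⊢
        by_cases hi' : i = 0
        · rw [if_pos hi', Finset.mem_singleton, hφ]
          simp only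
          rw [hi', ha0, hx.2.1]
          ring
        · rw [if_neg hi']; exact h3
    have h1 : (X.card : ℝ) = ∑ y ∈ Y, ((X.filter fun x => φ x = y).card : ℝ) := by
      exact_mod_cast Finset.card_eq_sum_card_fiberwise hmaps
    have h2 : ∀ y ∈ Y, ((X.filter fun x => φ x = y).card : ℝ) ≤ C * (B : ℝ) ^ (1 - e) := by
      intro y _
      have h3 : ((X.filter fun x => φ x = y).image fun x => x i₀).card =
          (X.filter fun x => φ x = y).card := by
        refine Finset.card_image_of_injOn ?_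
        intro x hx x' hx' hxx'
        rw [Finset.mem_coe, Finset.mem_filter] at hx hx'
        funext i
        have h4 := congrFun (hx.2.trans hx'.2.symm) i
        simp only [hφ] at h4 hxx'
        rw [hxx'] at h4
        have h5 : a i₀ * x i = a i₀ * x' i := by linarith
        exact mul_left_cancel₀ ha h5
      rw [← h3]
      refine h B hBB hB y _ fun t ht => ?_
      obtain ⟨x, hx, hxt⟩ := Finset.mem_image.mp ht
      rw [Finset.mem_filter, hX, Finset.mem_filter] at hx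
      exact ⟨x, hx.1.1, by rw [hx.1.2.1]; exact hm, hx.1.2.2.2, hxt, hx.2⟩
    rw [h1]
    refine (Finset.sum_le_sum h2).trans ?_
    rw [Finset.sum_const, hYcard, nsmul_eq_mul]
    have h3 : 1 ≤ cdir a i₀ := by unfold cdir; omega
    have h4 : (1 : ℝ) ≤ cdir a i₀ := by exact_mod_cast h3
    have h5 : (((2 * (cdir a i₀ * B) + 1) ^ (n - 1) : ℕ) : ℝ) ≤
        (3 * cdir a i₀ : ℝ) ^ (n - 1) * (B : ℝ) ^ (n - 1) := by
      push_cast
      rw [← mul_pow]
      refine pow_le_pow_left₀ (by positivity) ?_ _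
      nlinarith
    have h6 : (B : ℝ) ^ (1 - e) * (B : ℝ) ^ (n - 1) = (B : ℝ) ^ ((n : ℝ) - e) := by
      rw [← Real.rpow_natCast, ← Real.rpow_add hBpos]
      congr 1
      rw [Nat.cast_sub hn1]
      push_cast
      ring
    have h7 : 0 ≤ (B : ℝ) ^ ((n : ℝ) - e) := by positivity
    calc (((2 * (cdir a i₀ * B) + 1) ^ (n - 1) : ℕ) : ℝ) * (C * (B : ℝ) ^ (1 - e)) ≤
          ((3 * cdir a i₀ : ℝ) ^ (n - 1) * (B : ℝ) ^ (n - 1)) * (C * (B : ℝ) ^ (1 - e)) :=
          mul_le_mul_of_nonneg_right h5 (by positivity)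
      _ = C * (3 * cdir a i₀ : ℝ) ^ (n - 1) * ((B : ℝ) ^ (1 - e) * (B : ℝ) ^ (n - 1)) := by ring
      _ ≤ _ := by rw [h6, add_mul]; linarith
  exact h1.of_eventually B₀ fun B x hBB _ _ _ hx => ⟨hBB, hx⟩

/-- A nonzero form does not vanish identically on the slices. -/
theorem slice_ne_zero {n : ℕ} (G : MvPolynomial (Fin (n + 1)) ℤ) {d : ℕ} (hd : G.IsHomogeneous d)
    (hG : G ≠ 0) (m : ℤ) (hm : m ≠ 0) :
    (aeval (Fin.cons (C m) fun i => X i : Fin (n + 1) → MvPolynomial (Fin n) ℤ) G) ≠ 0 := by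
  intro h0
  -- `G` vanishes on the slice over the rationals
  have h1 : ∀ w : Fin n → ℚ, aeval (Fin.cons (m : ℚ) w : Fin (n + 1) → ℚ) G = 0 := by
    intro w
    have h2 : (aeval w).toRingHom.comp
        (aeval (Fin.cons (C m) fun i => X i : Fin (n + 1) → MvPolynomial (Fin n) ℤ)).toRingHom =
        (aeval (Fin.cons (m : ℚ) w : Fin (n + 1) → ℚ) : MvPolynomial (Fin (n + 1)) ℤ →ₐ[ℤ] ℚ
          ).toRingHom := by
      refine MvPolynomial.ringHom_ext' (RingHom.ext_int _ _) fun i => ?_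
      refine Fin.cases ?_ (fun j => ?_) i
      · simp
      · simp
    have h3 := congrArg (fun f : MvPolynomial (Fin (n + 1)) ℤ →+* ℚ => f G) h2
    simp only [RingHom.comp_apply, AlgHom.toRingHom_eq_coe, RingHom.coe_coe] at h3
    rw [← h3, h0, map_zero]
  have hm' : (m : ℚ) ≠ 0 := by exact_mod_cast hm
  have h2 : ∀ v : Fin (n + 1) → ℚ, v 0 ≠ 0 → aeval v G = 0 := by
    intro v hv
    have h3 : v = fun i => (v 0 / m) * (Fin.cons (m : ℚ) (fun i => v i.succ * (m / v 0)) :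
        Fin (n + 1) → ℚ) i := by
      funext i
      refine Fin.cases ?_ (fun j => ?_) i
      · simp only [Fin.cons_zero]; field_simp
      · simp only [Fin.cons_succ]; field_simp
    rw [h3, aeval_scale G hd, h1, mul_zero]
  have h3 : toQ (X 0 * G) = 0 := by
    refine MvPolynomial.funext fun v => ?_
    rw [map_mul, map_mul, MvPolynomial.map_X, eval_X, map_zero]
    by_cases hv : v 0 = 0
    · rw [hv, zero_mul]
    · have h4 := h2 v hv
      rw [MvPolynomial.aeval_def] at h4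
      have h5 : eval v (toQ G) = eval₂ (algebraMap ℤ ℚ) v G := by
        rw [MvPolynomial.eval_map]; rfl
      rw [h5, h4, mul_zero]
  have h4 : X 0 * G = 0 := toQ_injective (by rw [h3, map_zero])
  rcases mul_eq_zero.mp h4 with h5 | h5
  · exact X_ne_zero _ h5
  · exact hG h5

theorem sparse_zeros {n : ℕ} (hn : 1 ≤ n) (G : MvPolynomial (Fin (n + 1)) ℤ) {d : ℕ}
    (hd : G.IsHomogeneous d) (hG : G ≠ 0) : SSparse n (fun _ x => eval x G = 0) := by
  classical
  obtain ⟨n', rfl⟩ : ∃ n', n = n' + 1 := ⟨n - 1, by omega⟩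
  refine ⟨1, one_pos, d * 3 ^ n' + 1, by positivity, fun B hB m hm => ?_⟩
  set H : MvPolynomial (Fin (n' + 1)) ℤ :=
    aeval (Fin.cons (C m) fun i => X i : Fin (n' + 1 + 1) → MvPolynomial (Fin (n' + 1)) ℤ) G
    with hH
  have hH0 : H ≠ 0 := slice_ne_zero G hd hG m hm
  have hev : ∀ x : Fin (n' + 1 + 1) → ℤ, x 0 = m → eval (fun i => x i.succ) H = eval x G := by
    intro x hx
    have h2 : (eval (fun i : Fin (n' + 1) => x i.succ)).comp
        (aeval (Fin.cons (C m) fun i => X i :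
          Fin (n' + 1 + 1) → MvPolynomial (Fin (n' + 1)) ℤ)).toRingHom = eval x := by
      refine MvPolynomial.ringHom_ext' (RingHom.ext_int _ _) fun i => ?_
      refine Fin.cases ?_ (fun j => ?_) i
      · simp [hx]
      · simp
    exact congrArg (fun f : MvPolynomial (Fin (n' + 1 + 1)) ℤ →+* ℤ => f G) h2
  have hdeg : H.totalDegree ≤ d := by
    have h1 : H = ∑ e ∈ G.support, C (coeff e G) * ∏ i ∈ e.support,
        (Fin.cons (C m) (fun i => X i) : Fin (n' + 1 + 1) → MvPolynomial (Fin (n' + 1)) ℤ) i ^ e i := by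
      rw [hH, aeval_def, eval₂_eq]
      rfl
    rw [h1]
    refine totalDegree_finsetSum_le fun e he => ?_
    refine (totalDegree_mul _ _).trans ?_
    rw [totalDegree_C, zero_add]
    refine (totalDegree_finset_prod _ _).trans ?_
    have h2 : ∀ i ∈ e.support, ((Fin.cons (C m) (fun i => X i) :
        Fin (n' + 1 + 1) → MvPolynomial (Fin (n' + 1)) ℤ) i ^ e i).totalDegree ≤ e i := by
      intro i _
      refine (totalDegree_pow _ _).trans ?_
      have h3 : ((Fin.cons (C m) (fun i => X i) :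
        Fin (n' + 1 + 1) → MvPolynomial (Fin (n' + 1)) ℤ) i).totalDegree ≤ 1 := by
        refine Fin.cases ?_ (fun j => ?_) i
        · rw [Fin.cons_zero, totalDegree_C]; omega
        · rw [Fin.cons_succ, totalDegree_X]
      nlinarith
    refine (Finset.sum_le_sum h2).trans (le_of_eq ?_)
    have := hd (MvPolynomial.mem_support_iff.mp he)
    rw [Finsupp.weight_apply] at this
    simpa [Finsupp.sum] using this
  have h := zeros_card_le_real H hH0 B hB
  have h1 : Set.ncard {x | x ∈ box (n' + 1 + 1) B ∧ x 0 = m ∧ eval x G = 0} ≤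
      ((box (n' + 1) B).filter fun x => eval x H = 0).card := by
    rw [← Set.ncard_coe_finset]
    refine Set.ncard_le_ncard_of_injOn (fun x i => x i.succ) ?_ ?_ (Finset.finite_toSet _)
    · rintro x ⟨hx, hx0, hxG⟩
      rw [Finset.mem_coe, Finset.mem_filter, mem_box]
      refine ⟨fun i => mem_box.mp hx i.succ, ?_⟩
      rw [hev x hx0, hxG]
    · rintro x ⟨-, hx, -⟩ x' ⟨-, hx', -⟩ h
      funext i
      refine Fin.cases (by rw [hx, hx']) (fun j => ?_) i
      exact congrFun h j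
  have h2 : (Set.ncard {x | x ∈ box (n' + 1 + 1) B ∧ x 0 = m ∧ eval x G = 0} : ℝ) ≤
      H.totalDegree * 3 ^ n' * (B : ℝ) ^ n' := le_trans (by exact_mod_cast h1) h
  refine h2.trans ?_
  have h3 : (((n' + 1 : ℕ) : ℝ) - 1) = (n' : ℕ) := by push_cast; ring
  rw [h3, Real.rpow_natCast]
  refine mul_le_mul_of_nonneg_right ?_ (by positivity)
  have h4 : (H.totalDegree : ℝ) ≤ d := by exact_mod_cast hdeg
  have h5 : (H.totalDegree : ℝ) * 3 ^ n' ≤ d * 3 ^ n' := mul_le_mul_of_nonneg_right h4 (by positivity)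
  linarith

end Run7.h742.VI
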