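import Mathlib
import Pool.Agent.Run7.h742.VI.Slice
import Pool.Agent.Run7.h742.VI.ElimHom
import Pool.Agent.N445.VW.SpB

/-!
# Sparse sets of points of the slices: small values, divisors with a small radical, squares, common
# factors (helper742)

The proofs are those of `Pool.Agent.N445.VW.SpA`, `Pool.Agent.N445.VW.SpB` and
`Pool.Agent.TH910.Voj.Gcd`, for lines which are parallel to the slices.
-/

set_option autoImplicit false

namespace Run7.h742.VI

open MvPolynomial Pool.Agent.TH910.Voj Pool.Agent.H813R3.Voj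
open Pool.Agent.N445.VW hiding sparse_of_fibres sparse_sing sparse_square

theorem sparse_small_value {n : ℕ} (G : MvPolynomial (Fin (n + 1)) ℤ) {k : ℕ}
    (hk : G.IsHomogeneous k) (hk1 : 1 ≤ k) (a : Fin (n + 1) → ℤ) (i₀ : Fin (n + 1))
    (hGa : eval a G ≠ 0) (ha : a i₀ ≠ 0) (ha0 : a 0 = 0) {ε : ℝ} (hε : 0 < ε) (hε1 : ε ≤ 1) :
    SSparse n (fun B x => eval x G ≠ 0 ∧
      ((eval x G).natAbs : ℝ) ≤ (B : ℝ) ^ ((k : ℝ) - ε)) := by
  have hkR : (1 : ℝ) ≤ k := by exact_mod_cast hk1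
  have hkpos : (0 : ℝ) < k := by linarith
  refine sparse_of_fibres a i₀ ha ha0 _ 1 (k * (2 * |(a i₀ : ℝ)| + 1)) (ε / k) (by positivity)
    (by positivity) ?_
  intro B _ hB y T hT
  have hB1 : (1 : ℝ) ≤ B := by exact_mod_cast hB
  have hBpos : (0 : ℝ) < B := by linarith
  set β : ℝ := (B : ℝ) ^ (1 - ε / k) with hβ
  have hβ1 : 1 ≤ β := by
    refine Real.one_le_rpow hB1 ?_
    have : ε / k ≤ 1 := by rw [div_le_one hkpos]; linarith
    linarith
  refine (card_small_values (onLine G y a) hk1 (onLine_spec G hk y a).1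
    (by rw [(onLine_spec G hk y a).2]; exact hGa) (|(a i₀ : ℝ)| * β) (by positivity) T ?_).trans ?_
  · intro t ht
    obtain ⟨x, hx, -, hx2, hxt, hxy⟩ := hT t ht
    rw [← hxt, eval_fibre G hk a i₀ x y hxy]
    push_cast
    rw [abs_mul, abs_pow, mul_pow]
    refine mul_le_mul_of_nonneg_left ?_ (by positivity)
    have h1 : β ^ k = (B : ℝ) ^ ((k : ℝ) - ε) := by
      rw [hβ, ← Real.rpow_natCast, ← Real.rpow_mul hBpos.le]
      congr 1
      field_simp
    rw [h1]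
    have h2 := hx2.2
    rwa [Nat.cast_natAbs, Int.cast_abs] at h2
  · have : 0 ≤ |(a i₀ : ℝ)| := abs_nonneg _
    nlinarith

/-- **Divisors with a small radical**: the values of a form are seldom divisible by a large
number whose radical is very small. -/
theorem sparse_sing {n : ℕ} (F : MvPolynomial (Fin (n + 1)) ℤ) {k : ℕ} (hk : F.IsHomogeneous k)
    (hk1 : 1 ≤ k) (a : Fin (n + 1) → ℤ) (i₀ : Fin (n + 1)) (hFa : eval a F ≠ 0) (ha : a i₀ ≠ 0)
    (ha0 : a 0 = 0) {ε : ℝ} (hε : 0 < ε) (hε1 : ε ≤ 1) :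
    ∃ η : ℝ, 0 < η ∧ SSparse n (fun B x => eval x F ≠ 0 ∧
      ∃ d : ℕ, (d : ℤ) ∣ eval x F ∧ (B : ℝ) ^ ε < d ∧ (rd d : ℝ) ≤ (B : ℝ) ^ η) := by
  classical
  obtain ⟨c, hc1, hc⟩ := exists_eval_bound F (hk.totalDegree_le)
  set E := (k + 1) * (k + 1) with hE
  have hE0 : (0 : ℝ) < E := by rw [hE]; positivity
  have hE1 : (1 : ℝ) ≤ E := by
    have : 1 ≤ E := by rw [hE]; nlinarith
    exact_mod_cast this
  have hk0 : (0 : ℝ) < k := by exact_mod_cast hk1
  set e : ℝ := ε / (4 * E) with he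
  have he0 : 0 < e := by positivity
  set δ : ℝ := e / (2 * k) with hδ
  have hδ0 : 0 < δ := by positivity
  obtain ⟨Cr, hCr0, hCr⟩ := card_small_rad hδ0
  obtain ⟨B₀, hB₀⟩ : ∃ B₀ : ℕ, ∀ B : ℕ, B₀ ≤ B → ((eval a F).natAbs : ℝ) ≤ (B : ℝ) ^ (ε / 2) := by
    have h1 : Filter.Tendsto (fun B : ℕ => (B : ℝ) ^ (ε / 2)) Filter.atTop Filter.atTop :=
      (tendsto_rpow_atTop (by positivity)).comp tendsto_natCast_atTop_atTop
    exact Filter.eventually_atTop.mp (h1.eventually_ge_atTop ((eval a F).natAbs : ℝ))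
  refine ⟨e / 2, by positivity, sparse_of_fibres a i₀ ha ha0 _ B₀
    (Cr * (c : ℝ) ^ δ * (5 * k + 1)) e he0 (by positivity) ?_⟩
  intro B hBB hB y T hT
  have hB1 : (1 : ℝ) ≤ B := by exact_mod_cast hB
  have hBpos : (0 : ℝ) < B := by linarith
  set L : ℝ := (B : ℝ) ^ (ε / (2 * E)) with hL
  have hL1 : 1 ≤ L := Real.one_le_rpow hB1 (by positivity)
  obtain ⟨hℓ1, hℓ2, hℓ3⟩ := floor_bounds hL1
  set ℓ := ⌊L⌋₊ with hℓ
  set N := c * B ^ k with hN
  have hN1 : 1 ≤ N := Nat.one_le_iff_ne_zero.mpr (Nat.mul_ne_zero (by omega)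
    (pow_ne_zero _ (by omega)))
  set V := (Finset.Icc (-(N : ℤ)) N).filter fun v => v ≠ 0 ∧
    (rd v.natAbs : ℝ) ≤ (B : ℝ) ^ (e / 2) with hV
  set W := V.filter (fun v => (B : ℝ) ^ ε < v.natAbs ∧ 0 < v) with hW
  have hlt : ∀ d : ℕ, (B : ℝ) ^ ε < d →
      ((onLine F y a).coeff k).natAbs * ℓ ^ E < d := by
    intro d hd
    have h1 := (onLine_spec F hk y a).2
    have h2 : aeval a F = eval a F := rfl
    rw [h1, h2]
    have h3 : (((eval a F).natAbs * ℓ ^ E : ℕ) : ℝ) ≤ (B : ℝ) ^ ε := by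
      push_cast
      have h4 : (ℓ : ℝ) ^ E ≤ (B : ℝ) ^ (ε / 2) := by
        calc (ℓ : ℝ) ^ E ≤ L ^ E := pow_le_pow_left₀ (by positivity) hℓ2 _
          _ = (B : ℝ) ^ (ε / 2) := by
              rw [hL, ← Real.rpow_natCast, ← Real.rpow_mul hBpos.le]
              congr 1
              field_simp
      have h5 : (B : ℝ) ^ ε = (B : ℝ) ^ (ε / 2) * (B : ℝ) ^ (ε / 2) := by
        rw [← Real.rpow_add hBpos]; congr 1; ring
      rw [h5]
      have h6 := hB₀ B hBB
      exact mul_le_mul h6 h4 (by positivity) (by positivity)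
    exact_mod_cast lt_of_le_of_lt h3 hd
  have hsub : T ⊆ W.biUnion fun v => (Finset.Icc (-(B : ℤ)) B).filter
      fun t => ((v.natAbs : ℕ) : ℤ) ∣ (onLine F y a).eval t := by
    intro t ht
    obtain ⟨x, hx, -, ⟨hne, d, hd1, hd2, hd3⟩, rfl, hxy⟩ := hT t ht
    rw [Finset.mem_biUnion]
    have hd0 : 0 < d := by
      rcases Nat.eq_zero_or_pos d with h0 | h0
      · subst h0
        exfalso
        apply hne
        simpa using hd1
      · exact h0
    refine ⟨(d : ℤ), ?_, ?_⟩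
    · rw [hW, Finset.mem_filter, hV, Finset.mem_filter, Finset.mem_Icc, Int.natAbs_natCast]
      have h1 : d ≤ (eval x F).natAbs :=
        Nat.le_of_dvd (Int.natAbs_pos.mpr hne) (Int.natCast_dvd.mp hd1)
      have h2 := hc B hB x hx
      refine ⟨⟨⟨by omega, by omega⟩, by omega, hd3⟩, hd2, by omega⟩
    · rw [Finset.mem_filter, Finset.mem_Icc, ← abs_le, Int.natAbs_natCast]
      refine ⟨mem_box.mp hx i₀, ?_⟩
      rw [eval_fibre F hk a i₀ x y hxy]
      exact hd1.mul_left _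
  have hcard : T.card ≤ W.card * (k * (2 * B / ℓ + 1)) := by
    refine (Finset.card_le_card hsub).trans (Finset.card_biUnion_le_card_mul _ _ _ ?_)
    intro v hv
    rw [hW, Finset.mem_filter] at hv
    refine card_roots_mod_le (onLine F y a) k (onLine_spec F hk y a).1
      (by rw [(onLine_spec F hk y a).2]; exact hFa) v.natAbs ℓ hℓ1 (hlt _ hv.2.1) B
  have h2 : ((k * (2 * B / ℓ + 1) : ℕ) : ℝ) ≤ (5 * k + 1) * (B : ℝ) ^ (1 - 2 * e) := by
    have hBe : (1 : ℝ) ≤ (B : ℝ) ^ (1 - 2 * e) := by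
      refine Real.one_le_rpow hB1 ?_
      rw [he]
      have : 2 * (ε / (4 * E)) ≤ 1 := by
        rw [← mul_div_assoc, div_le_one (by positivity)]
        nlinarith
      linarith
    have h3 : ((2 * B / ℓ : ℕ) : ℝ) ≤ 4 * (B : ℝ) ^ (1 - 2 * e) := by
      refine (Nat.cast_div_le).trans ?_
      push_cast
      have hℓ0 : (0 : ℝ) < ℓ := by exact_mod_cast hℓ1
      rw [div_le_iff₀ hℓ0]
      have h4 : (B : ℝ) = (B : ℝ) ^ (1 - 2 * e) * L := by
        rw [hL, ← Real.rpow_add hBpos, he]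
        have : 1 - 2 * (ε / (4 * E)) + ε / (2 * E) = 1 := by
          field_simp
          ring
        rw [this, Real.rpow_one]
      calc 2 * (B : ℝ) = 2 * ((B : ℝ) ^ (1 - 2 * e) * L) := by rw [← h4]
        _ ≤ 2 * ((B : ℝ) ^ (1 - 2 * e) * (2 * ℓ)) := by gcongr
        _ = _ := by ring
    push_cast
    nlinarith
  have h3 : (W.card : ℝ) ≤ Cr * (c : ℝ) ^ δ * (B : ℝ) ^ e := by
    have h4 : (W.card : ℝ) ≤ V.card := by exact_mod_cast Finset.card_filter_le _ _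
    refine h4.trans ((hCr N hN1 _ (by positivity)).trans ?_)
    have h6 : (N : ℝ) ^ δ ≤ (c : ℝ) ^ δ * (B : ℝ) ^ (e / 2) := by
      rw [hN]
      push_cast
      rw [Real.mul_rpow (by positivity) (by positivity)]
      refine mul_le_mul_of_nonneg_left (le_of_eq ?_) (by positivity)
      rw [← Real.rpow_natCast, ← Real.rpow_mul hBpos.le]
      congr 1
      rw [hδ]; field_simp
    calc Cr * (B : ℝ) ^ (e / 2) * (N : ℝ) ^ δ ≤
          Cr * (B : ℝ) ^ (e / 2) * ((c : ℝ) ^ δ * (B : ℝ) ^ (e / 2)) :=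
          mul_le_mul_of_nonneg_left h6 (by positivity)
      _ = Cr * (c : ℝ) ^ δ * ((B : ℝ) ^ (e / 2) * (B : ℝ) ^ (e / 2)) := by ring
      _ = _ := by
          rw [← Real.rpow_add hBpos]
          congr 2
          ring
  have h5 : (T.card : ℝ) ≤ W.card * ((k * (2 * B / ℓ + 1) : ℕ) : ℝ) := by exact_mod_cast hcard
  calc (T.card : ℝ) ≤ W.card * ((k * (2 * B / ℓ + 1) : ℕ) : ℝ) := h5
    _ ≤ (Cr * (c : ℝ) ^ δ * (B : ℝ) ^ e) * ((5 * k + 1) * (B : ℝ) ^ (1 - 2 * e)) :=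
        mul_le_mul h3 h2 (by positivity) (by positivity)
    _ = (Cr * (c : ℝ) ^ δ * (5 * k + 1)) * ((B : ℝ) ^ e * (B : ℝ) ^ (1 - 2 * e)) := by ring
    _ = _ := by
        rw [← Real.rpow_add hBpos]
        congr 2
        ring

/-- **Squares prime to the derivative.** -/
theorem sparse_square {n : ℕ} (F : MvPolynomial (Fin (n + 1)) ℤ) {k : ℕ} (hk : F.IsHomogeneous k)
    (hk1 : 1 ≤ k) (a : Fin (n + 1) → ℤ) (i₀ : Fin (n + 1)) (hFa : eval a F ≠ 0) (ha : a i₀ ≠ 0)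
    (ha0 : a 0 = 0) {ε δ : ℝ} (hε : 0 < ε) (hδ : 0 < δ) (hδ1 : δ ≤ 1) :
    SSparse n (fun B x => ∃ m : ℕ, (B : ℝ) ^ ε < m ∧ (m : ℝ) ≤ (B : ℝ) ^ (1 - δ) ∧
      (m : ℤ) ^ 2 ∣ eval x F ∧ ∀ p : ℕ, p.Prime → p ∣ m →
        ¬ (p : ℤ) ∣ a i₀ * eval a F * eval x (dder a F)) := by
  classical
  have hk0 : (0 : ℝ) < k := by exact_mod_cast hk1
  set e : ℝ := min ε δ / 2 with he
  have he0 : 0 < e := by have := lt_min hε hδ; positivity
  have heε : 2 * e ≤ ε := by rw [he]; linarith [min_le_left ε δ]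
  have heδ : 2 * e ≤ δ := by rw [he]; linarith [min_le_right ε δ]
  obtain ⟨Cd, hCd0, hCd⟩ := Pool.Agent.H510R2.divisor_bound (e / k) (by positivity)
  refine sparse_of_fibres a i₀ ha ha0 _ 1 (5 * Cd ^ k) e he0 (by positivity) ?_
  intro B _ hB y T hT
  have hB1 : (1 : ℝ) ≤ B := by exact_mod_cast hB
  have hBpos : (0 : ℝ) < B := by linarith
  set f := onLine F y a with hf
  have hfc : f.coeff k = eval a F := (onLine_spec F hk y a).2
  have hfd : f.natDegree = k := by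
    refine le_antisymm (onLine_spec F hk y a).1 (Polynomial.le_natDegree_of_ne_zero ?_)
    rw [hfc]; exact hFa
  have hfl : f.leadingCoeff = eval a F := by
    rw [Polynomial.leadingCoeff, hfd, hfc]
  obtain ⟨hM1, hM2, hM3⟩ := floor_bounds (Real.one_le_rpow hB1 hε.le)
  set M0 := ⌊(B : ℝ) ^ ε⌋₊ with hM0
  set M1 := ⌊(B : ℝ) ^ (1 - δ)⌋₊ with hM1'
  have hM1B : (M1 : ℝ) ≤ (B : ℝ) ^ (1 - δ) := Nat.floor_le (by positivity)
  have hfib : ∀ t ∈ T, ∃ m : ℕ, M0 < m ∧ m ≤ M1 ∧ (m : ℤ) ^ 2 ∣ f.eval t ∧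
      ∀ p : ℕ, p.Prime → p ∣ m → ¬ (p : ℤ) ∣ (Polynomial.derivative f).eval t ∧
        ¬ (p : ℤ) ∣ f.leadingCoeff := by
    intro t ht
    obtain ⟨x, hx, -, ⟨m, h1, h2, h3, h4⟩, rfl, hxy⟩ := hT t ht
    refine ⟨m, ?_, Nat.le_floor h2, ?_, ?_⟩
    · rw [hM0, Nat.floor_lt (by positivity)]; exact h1
    · rw [hf, eval_fibre F hk a i₀ x y hxy]
      exact h3.mul_left _
    · intro p hp hpm
      have h5 := h4 p hp hpm
      have hpZ : Prime (p : ℤ) := Nat.prime_iff_prime_int.1 hp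
      constructor
      · intro h6
        rw [hf, derivative_onLine, eval_fibre (dder a F) (dder_isHomogeneous a F hk) a i₀ x y hxy]
          at h6
        rcases hpZ.dvd_or_dvd h6 with h7 | h7
        · exact h5 (((hpZ.dvd_of_dvd_pow h7).mul_right _).mul_right _)
        · exact h5 (h7.mul_left _)
      · intro h6
        rw [hfl] at h6
        exact h5 ((h6.mul_left _).mul_right _)
  by_cases hMM : M0 ≤ M1
  swap
  · have : T = ∅ := by
      rw [Finset.eq_empty_iff_forall_notMem]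
      intro t ht
      obtain ⟨m, h1, h2, -⟩ := hfib t ht
      omega
    rw [this, Finset.card_empty, Nat.cast_zero]
    positivity
  have hsub : T ⊆ (Finset.Ioc M0 M1).biUnion fun m => T.filter fun t => (m : ℤ) ^ 2 ∣ f.eval t ∧
      ∀ p : ℕ, p.Prime → p ∣ m → ¬ (p : ℤ) ∣ (Polynomial.derivative f).eval t ∧
        ¬ (p : ℤ) ∣ f.leadingCoeff := by
    intro t ht
    obtain ⟨m, h1, h2, h3, h4⟩ := hfib t ht
    rw [Finset.mem_biUnion]
    exact ⟨m, Finset.mem_Ioc.2 ⟨h1, h2⟩, Finset.mem_filter.2 ⟨ht, h3, h4⟩⟩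
  have hBe0 : 0 ≤ Cd ^ k * (B : ℝ) ^ e := by positivity
  have h1 : (T.card : ℝ) ≤ ∑ m ∈ Finset.Ioc M0 M1,
      (Cd ^ k * (B : ℝ) ^ e) * (2 * (B : ℝ) / (m : ℝ) ^ 2 + 1) := by
    have h2 : (T.card : ℝ) ≤ ∑ m ∈ Finset.Ioc M0 M1, ((T.filter fun t => (m : ℤ) ^ 2 ∣ f.eval t ∧
      ∀ p : ℕ, p.Prime → p ∣ m → ¬ (p : ℤ) ∣ (Polynomial.derivative f).eval t ∧
        ¬ (p : ℤ) ∣ f.leadingCoeff).card : ℝ) := by
      have := (Finset.card_le_card hsub).trans Finset.card_biUnion_le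
      exact_mod_cast this
    refine h2.trans (Finset.sum_le_sum fun m hm => ?_)
    rw [Finset.mem_Ioc] at hm
    have hm1 : 1 ≤ m := by omega
    set Tm := T.filter fun t => (m : ℤ) ^ 2 ∣ f.eval t ∧
      ∀ p : ℕ, p.Prime → p ∣ m → ¬ (p : ℤ) ∣ (Polynomial.derivative f).eval t ∧
        ¬ (p : ℤ) ∣ f.leadingCoeff with hTm
    rcases Tm.eq_empty_or_nonempty with hemp | ⟨t1, ht1⟩
    · rw [hemp, Finset.card_empty, Nat.cast_zero]
      positivity
    have h3 := card_sq f m hm1 B Tm (by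
      intro t ht
      rw [hTm, Finset.mem_filter] at ht
      obtain ⟨x, hx, -, -, rfl, -⟩ := hT t ht.1
      exact ⟨mem_box.mp hx i₀, ht.2.1, fun p hp hpm => (ht.2.2 p hp hpm).1⟩) (by
      intro p hp hpm
      rw [hTm, Finset.mem_filter] at ht1
      exact (ht1.2.2 p hp hpm).2)
    rw [hfd] at h3
    have h4 : (Tm.card : ℝ) ≤ ((k ^ m.primeFactors.card : ℕ) : ℝ) * ((2 * B / m ^ 2 + 1 : ℕ) : ℝ) := by
      exact_mod_cast h3
    refine h4.trans (mul_le_mul ?_ ?_ (by positivity) hBe0)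
    · have h5 : ((k ^ m.primeFactors.card : ℕ) : ℝ) ≤ (m.divisors.card : ℝ) ^ k := by
        exact_mod_cast pow_card_primeFactors_le k m (by omega)
      refine h5.trans ?_
      have h6 := hCd m hm1
      calc (m.divisors.card : ℝ) ^ k ≤ (Cd * (m : ℝ) ^ (e / k)) ^ k :=
            pow_le_pow_left₀ (by positivity) h6 _
        _ = Cd ^ k * (m : ℝ) ^ e := by
            rw [mul_pow, ← Real.rpow_natCast ((m : ℝ) ^ (e / k)), ← Real.rpow_mul (by positivity)]
            congr 2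
            field_simp
        _ ≤ Cd ^ k * (B : ℝ) ^ e := by
            refine mul_le_mul_of_nonneg_left ?_ (by positivity)
            refine Real.rpow_le_rpow (by positivity) ?_ he0.le
            have h7 : (m : ℝ) ≤ M1 := by exact_mod_cast hm.2
            have h8 : (B : ℝ) ^ (1 - δ) ≤ (B : ℝ) ^ (1 : ℝ) :=
              Real.rpow_le_rpow_of_exponent_le hB1 (by linarith)
            rw [Real.rpow_one] at h8
            linarith
    · push_cast
      have h5 : ((2 * B / m ^ 2 : ℕ) : ℝ) ≤ 2 * (B : ℝ) / (m : ℝ) ^ 2 := by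
        refine Nat.cast_div_le.trans ?_
        push_cast
        exact le_rfl
      push_cast at h5
      linarith
  refine h1.trans ?_
  rw [← Finset.mul_sum]
  have h2 : ∑ m ∈ Finset.Ioc M0 M1, (2 * (B : ℝ) / (m : ℝ) ^ 2 + 1) ≤ 5 * (B : ℝ) ^ (1 - 2 * e) := by
    refine (sum_squares_le (B : ℝ) hBpos.le M0 M1 hM1 hMM).trans ?_
    have hM0pos : (0 : ℝ) < M0 := by exact_mod_cast hM1
    have h3 : 2 * (B : ℝ) / M0 ≤ 4 * (B : ℝ) ^ (1 - 2 * e) := by
      rw [div_le_iff₀ hM0pos]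
      have h4 : (B : ℝ) ≤ (B : ℝ) ^ (1 - 2 * e) * (B : ℝ) ^ ε := by
        rw [← Real.rpow_add hBpos]
        conv_lhs => rw [← Real.rpow_one (B : ℝ)]
        exact Real.rpow_le_rpow_of_exponent_le hB1 (by linarith)
      have h5 : (B : ℝ) ^ (1 - 2 * e) * (B : ℝ) ^ ε ≤ (B : ℝ) ^ (1 - 2 * e) * (2 * M0) :=
        mul_le_mul_of_nonneg_left hM3 (by positivity)
      nlinarith
    have h4 : (M1 : ℝ) ≤ (B : ℝ) ^ (1 - 2 * e) :=
      hM1B.trans (Real.rpow_le_rpow_of_exponent_le hB1 (by linarith))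
    linarith
  calc (Cd ^ k * (B : ℝ) ^ e) * ∑ m ∈ Finset.Ioc M0 M1, (2 * (B : ℝ) / (m : ℝ) ^ 2 + 1) ≤
        (Cd ^ k * (B : ℝ) ^ e) * (5 * (B : ℝ) ^ (1 - 2 * e)) :=
        mul_le_mul_of_nonneg_left h2 hBe0
    _ = (5 * Cd ^ k) * ((B : ℝ) ^ e * (B : ℝ) ^ (1 - 2 * e)) := by ring
    _ = _ := by
        rw [← Real.rpow_add hBpos]
        congr 2
        ring

/-- The values of a form and of a polynomial without common factor have few common prime factors. -/
theorem sparse_gcd {n : ℕ} (hn : 1 ≤ n) (F G : MvPolynomial (Fin (n + 1)) ℤ) {k g : ℕ}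
    (hk : F.IsHomogeneous k) (hg : G.IsHomogeneous g) (hF : Irreducible (toQ F))
    (hG : ¬ toQ F ∣ toQ G) (a : Fin (n + 1) → ℤ) (i₀ : Fin (n + 1)) (hFa : eval a F ≠ 0)
    (ha : a i₀ ≠ 0) (ha0 : a 0 = 0) {η : ℝ} (hη : 0 < η) :
    SSparse n (fun B x => eval x F ≠ 0 ∧
      (B : ℝ) ^ η < rd (Int.gcd (eval x F) (eval x G))) := by
  classical
  wlog hη1 : η ≤ 1 generalizing η with hw
  · refine (hw (η := 1) one_pos le_rfl).mono ?_
    rintro B x hB - - ⟨h1, h2⟩
    refine ⟨h1, lt_of_le_of_lt ?_ h2⟩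
    have hB1 : (1 : ℝ) ≤ B := by exact_mod_cast hB
    exact Real.rpow_le_rpow_of_exponent_le hB1 (by linarith)
  obtain ⟨D, r, U, V, hrD, hrUV, hr0⟩ := elimination_hom F G hk hg hF hG a i₀ hFa ha
  obtain ⟨cr, hcr1, hcr⟩ := exists_eval_bound r hrD.totalDegree_le
  set E := (k + 1) * (k + 1) with hE
  have hE0 : (0 : ℝ) < E := by rw [hE]; positivity
  have hE1 : (1 : ℝ) ≤ E := by
    have : 1 ≤ E := by rw [hE]; nlinarith
    exact_mod_cast this
  set ca : ℕ := cdir a i₀ with hca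
  set δ : ℝ := η / (4 * E * (D + 1)) with hδ
  have hδ0 : 0 < δ := by positivity
  obtain ⟨Cd, hCd0, hCd⟩ := Pool.Agent.H510R2.divisor_bound δ hδ0
  set e : ℝ := η / (4 * E) with he
  have he0 : 0 < e := by positivity
  obtain ⟨B₀, hB₀⟩ : ∃ B₀ : ℕ, ∀ B : ℕ, B₀ ≤ B → ((eval a F).natAbs : ℝ) ≤ (B : ℝ) ^ (η / 2) := by
    have h1 : Filter.Tendsto (fun B : ℕ => (B : ℝ) ^ (η / 2)) Filter.atTop Filter.atTop :=
      (tendsto_rpow_atTop (by positivity)).comp tendsto_natCast_atTop_atTop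
    exact Filter.eventually_atTop.mp (h1.eventually_ge_atTop ((eval a F).natAbs : ℝ))
  have hmain : SSparse n (fun B x => (eval x F ≠ 0 ∧
      (B : ℝ) ^ η < rd (Int.gcd (eval x F) (eval x G))) ∧ eval x (bind₁ (lin a i₀) r) ≠ 0) := by
    refine sparse_of_fibres a i₀ ha ha0 _ B₀
      ((Cd * ((cr * (ca : ℝ) ^ D) ^ δ)) * (5 * k + 1)) e he0 (by positivity) ?_
    intro B hBB hB y T hT
    have hB1 : (1 : ℝ) ≤ B := by exact_mod_cast hB
    have hBpos : (0 : ℝ) < B := by linarith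
    rcases T.eq_empty_or_nonempty with hemp | ⟨t1, ht1⟩
    · rw [hemp, Finset.card_empty, Nat.cast_zero]; positivity
    have hy : eval y r ≠ 0 ∧ y ∈ box (n + 1) (ca * B) := by
      obtain ⟨x, hx, -, ⟨-, h1⟩, -, hxy⟩ := hT t1 ht1
      refine ⟨?_, ?_⟩
      · rw [← eval_bind_lin a i₀ r x y hxy]; exact h1
      · have h2 := mem_ybox_of_box a i₀ B x hx
        rw [hxy] at h2
        rw [mem_box]
        intro i
        unfold ybox at h2
        rw [Fintype.mem_piFinset] at h2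
        have h7 := h2 i
        split_ifs at h7 with hi
        · rw [Finset.mem_singleton] at h7
          rw [h7, abs_zero]
          exact Int.natCast_nonneg _
        · rw [Finset.mem_Icc, ← abs_le] at h7
          exact h7
    obtain ⟨hry, hybox⟩ := hy
    have hca1 : 1 ≤ ca := by rw [hca]; unfold cdir; omega
    have hrle : (eval y r).natAbs ≤ cr * (ca * B) ^ D :=
      hcr (ca * B) (Nat.mul_pos hca1 hB) y hybox
    set L : ℝ := (B : ℝ) ^ (η / (2 * E)) with hL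
    have hL1 : 1 ≤ L := Real.one_le_rpow hB1 (by positivity)
    obtain ⟨hℓ1, hℓ2, hℓ3⟩ := floor_bounds hL1
    set ℓ := ⌊L⌋₊ with hℓ
    have hlt : ∀ d : ℕ, (B : ℝ) ^ η < d →
        ((onLine F y a).coeff k).natAbs * ℓ ^ E < d := by
      intro d hd
      have h1 := (onLine_spec F hk y a).2
      have h2 : aeval a F = eval a F := rfl
      rw [h1, h2]
      have h3 : (((eval a F).natAbs * ℓ ^ E : ℕ) : ℝ) ≤ (B : ℝ) ^ η := by
        push_cast
        have h4 : (ℓ : ℝ) ^ E ≤ (B : ℝ) ^ (η / 2) := by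
          calc (ℓ : ℝ) ^ E ≤ L ^ E := pow_le_pow_left₀ (by positivity) hℓ2 _
            _ = (B : ℝ) ^ (η / 2) := by
                rw [hL, ← Real.rpow_natCast, ← Real.rpow_mul hBpos.le]
                congr 1
                field_simp
        have h5 : (B : ℝ) ^ η = (B : ℝ) ^ (η / 2) * (B : ℝ) ^ (η / 2) := by
          rw [← Real.rpow_add hBpos]; congr 1; ring
        rw [h5]
        have h6 := hB₀ B hBB
        exact mul_le_mul h6 h4 (by positivity) (by positivity)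
      exact_mod_cast lt_of_le_of_lt h3 hd
    set W := ((eval y r).natAbs.divisors).filter (fun d : ℕ => (B : ℝ) ^ η < d) with hW
    have hsub : T ⊆ W.biUnion fun v => (Finset.Icc (-(B : ℤ)) B).filter
        fun t => ((v : ℕ) : ℤ) ∣ (onLine F y a).eval t := by
      intro t ht
      obtain ⟨x, hx, -, ⟨⟨hne, hd⟩, -⟩, rfl, hxy⟩ := hT t ht
      have h1 : ((rd (Int.gcd (eval x F) (eval x G)) : ℕ) : ℤ) ∣
          (Int.gcd (eval x F) (eval x G) : ℕ) := by exact_mod_cast rd_dvd _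
      rw [Finset.mem_biUnion]
      refine ⟨rd (Int.gcd (eval x F) (eval x G)), ?_, ?_⟩
      · rw [hW, Finset.mem_filter, Nat.mem_divisors]
        refine ⟨⟨?_, Int.natAbs_ne_zero.mpr hry⟩, hd⟩
        rw [← Int.natCast_dvd, ← eval_bind_lin a i₀ r x y hxy, hrUV, map_add, map_mul, map_mul]
        refine dvd_add ?_ ?_
        · exact (h1.trans (Int.gcd_dvd_left _ _)).mul_left _
        · exact (h1.trans (Int.gcd_dvd_right _ _)).mul_left _
      · rw [Finset.mem_filter, Finset.mem_Icc, ← abs_le]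
        refine ⟨mem_box.mp hx i₀, ?_⟩
        rw [eval_fibre F hk a i₀ x y hxy]
        exact (h1.trans (Int.gcd_dvd_left _ _)).mul_left _
    have hcard : T.card ≤ W.card * (k * (2 * B / ℓ + 1)) := by
      refine (Finset.card_le_card hsub).trans (Finset.card_biUnion_le_card_mul _ _ _ ?_)
      intro v hv
      rw [hW, Finset.mem_filter] at hv
      exact card_roots_mod_le (onLine F y a) k (onLine_spec F hk y a).1
        (by rw [(onLine_spec F hk y a).2]; exact hFa) v ℓ hℓ1 (hlt _ hv.2) B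
    have h2 : ((k * (2 * B / ℓ + 1) : ℕ) : ℝ) ≤ (5 * k + 1) * (B : ℝ) ^ (1 - 2 * e) := by
      have hBe : (1 : ℝ) ≤ (B : ℝ) ^ (1 - 2 * e) := by
        refine Real.one_le_rpow hB1 ?_
        rw [he]
        have : 2 * (η / (4 * E)) ≤ 1 := by
          rw [← mul_div_assoc, div_le_one (by positivity)]
          nlinarith
        linarith
      have h3 : ((2 * B / ℓ : ℕ) : ℝ) ≤ 4 * (B : ℝ) ^ (1 - 2 * e) := by
        refine (Nat.cast_div_le).trans ?_
        push_cast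
        have hℓ0 : (0 : ℝ) < ℓ := by exact_mod_cast hℓ1
        rw [div_le_iff₀ hℓ0]
        have h4 : (B : ℝ) = (B : ℝ) ^ (1 - 2 * e) * L := by
          rw [hL, ← Real.rpow_add hBpos, he]
          have : 1 - 2 * (η / (4 * E)) + η / (2 * E) = 1 := by
            field_simp
            ring
          rw [this, Real.rpow_one]
        calc 2 * (B : ℝ) = 2 * ((B : ℝ) ^ (1 - 2 * e) * L) := by rw [← h4]
          _ ≤ 2 * ((B : ℝ) ^ (1 - 2 * e) * (2 * ℓ)) := by gcongr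
          _ = _ := by ring
      push_cast at h3 ⊢
      have hk0 : (0 : ℝ) ≤ k := Nat.cast_nonneg k
      nlinarith
    have h3 : (W.card : ℝ) ≤ Cd * ((cr * (ca : ℝ) ^ D) ^ δ) * (B : ℝ) ^ e := by
      have h4 : (W.card : ℝ) ≤ ((eval y r).natAbs.divisors.card : ℝ) := by
        exact_mod_cast Finset.card_filter_le _ _
      refine h4.trans ?_
      have h9 : 1 ≤ (eval y r).natAbs := Int.natAbs_pos.mpr hry
      refine (hCd _ h9).trans ?_
      rw [mul_assoc]
      refine mul_le_mul_of_nonneg_left ?_ hCd0.le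
      have h10 : ((eval y r).natAbs : ℝ) ≤ (cr * (ca : ℝ) ^ D) * (B : ℝ) ^ D := by
        have : ((eval y r).natAbs : ℝ) ≤ cr * ((ca : ℝ) * B) ^ D := by exact_mod_cast hrle
        rw [mul_pow, ← mul_assoc] at this
        exact this
      calc ((eval y r).natAbs : ℝ) ^ δ ≤ ((cr * (ca : ℝ) ^ D) * (B : ℝ) ^ D) ^ δ :=
            Real.rpow_le_rpow (by positivity) h10 hδ0.le
        _ = (cr * (ca : ℝ) ^ D) ^ δ * ((B : ℝ) ^ D) ^ δ :=
            Real.mul_rpow (by positivity) (by positivity)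
        _ ≤ (cr * (ca : ℝ) ^ D) ^ δ * (B : ℝ) ^ e := by
            refine mul_le_mul_of_nonneg_left ?_ (by positivity)
            rw [← Real.rpow_natCast, ← Real.rpow_mul hBpos.le]
            refine Real.rpow_le_rpow_of_exponent_le hB1 ?_
            rw [hδ, he, ← mul_div_assoc, div_le_div_iff₀ (by positivity) (by positivity)]
            have hD0 : (0 : ℝ) ≤ D := Nat.cast_nonneg D
            nlinarith [mul_pos hη hE0]
    have h5 : (T.card : ℝ) ≤ W.card * ((k * (2 * B / ℓ + 1) : ℕ) : ℝ) := by exact_mod_cast hcard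
    calc (T.card : ℝ) ≤ W.card * ((k * (2 * B / ℓ + 1) : ℕ) : ℝ) := h5
      _ ≤ (Cd * ((cr * (ca : ℝ) ^ D) ^ δ) * (B : ℝ) ^ e) *
          ((5 * k + 1) * (B : ℝ) ^ (1 - 2 * e)) :=
          mul_le_mul h3 h2 (by positivity) (by positivity)
      _ = ((Cd * ((cr * (ca : ℝ) ^ D) ^ δ)) * (5 * k + 1)) *
          ((B : ℝ) ^ e * (B : ℝ) ^ (1 - 2 * e)) := by ring
      _ = _ := by
          rw [← Real.rpow_add hBpos]
          congr 2
          ring
  refine ((sparse_zeros hn (bind₁ (lin a i₀) r) (bind_isHomogeneous a i₀ r hrD) hr0).or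
    hmain).mono ?_
  intro B x _ _ _ hx
  by_cases h0 : eval x (bind₁ (lin a i₀) r) = 0
  · exact Or.inl h0
  · exact Or.inr ⟨hx, h0⟩

end Run7.h742.VI
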