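import Mathlib
import Pool.Agent.Run7.h742.VI.Comp
import Pool.Agent.Run7.h742.VI.Sp

/-!
# Values which are moderate multiples of powers are sparse in the slices (helper742)
-/

set_option autoImplicit false

namespace Run7.h742.VI

open MvPolynomial Pool.Agent.TH910.Voj Pool.Agent.H813R3.Voj
open Pool.Agent.N445.VW hiding sparse_of_fibres sparse_sing sparse_square

/-- The roots modulo a squarefree number are in few classes. -/
theorem card_classes (f : Polynomial ℤ) (s : ℕ) (hs : Squarefree s) (T : Finset ℤ)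
    (hT : ∀ t ∈ T, (s : ℤ) ∣ f.eval t ∧
      ∀ p : ℕ, p.Prime → p ∣ s → ¬ (p : ℤ) ∣ (Polynomial.derivative f).eval t)
    (hl : ∀ p : ℕ, p.Prime → p ∣ s → ¬ (p : ℤ) ∣ f.leadingCoeff) (M : ℝ)
    (hM : ∀ T' ⊆ T, (∀ t ∈ T', ∀ t' ∈ T', (s : ℤ) ∣ t' - t) → (T'.card : ℝ) ≤ M) :
    (T.card : ℝ) ≤ (f.natDegree : ℝ) ^ s.primeFactors.card * M := by
  classical
  have hs0 : s ≠ 0 := hs.ne_zero
  have hM0 : 0 ≤ M := by
    have := hM ∅ (Finset.empty_subset _) (by simp)
    simpa using this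
  set S : Finset ({p // p ∈ s.primeFactors} → ℤ) := Fintype.piFinset fun p => rts f p with hS
  have hScard : S.card ≤ f.natDegree ^ s.primeFactors.card := by
    rw [hS, Fintype.card_piFinset]
    calc ∏ p : {p // p ∈ s.primeFactors}, (rts f p).card ≤
          ∏ _p : {p // p ∈ s.primeFactors}, f.natDegree := by
          refine Finset.prod_le_prod' fun p _ => ?_
          have hp := p.2
          rw [Nat.mem_primeFactors] at hp
          exact card_rts f p hp.1 (hl p hp.1 hp.2.1)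
      _ = _ := by
          rw [Finset.prod_const, Finset.card_univ, Fintype.card_coe]
  set φ : ℤ → ({p // p ∈ s.primeFactors} → ℤ) := fun t p => t % ((p : ℕ) : ℤ) with hφ
  have hmaps : ∀ t ∈ T, φ t ∈ S := by
    intro t ht
    rw [hS, Fintype.mem_piFinset]
    intro p
    have hp := p.2
    rw [Nat.mem_primeFactors] at hp
    have hp0 : (0 : ℤ) < (p : ℕ) := by exact_mod_cast hp.1.pos
    unfold rts
    rw [Finset.mem_filter, Finset.mem_Ico]
    refine ⟨⟨Int.emod_nonneg _ hp0.ne', Int.emod_lt_of_pos _ hp0⟩, ?_⟩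
    have h2 : ((p : ℕ) : ℤ) ∣ f.eval t := by
      have h3 : ((p : ℕ) : ℤ) ∣ (s : ℤ) := by exact_mod_cast hp.2.1
      exact h3.trans (hT t ht).1
    have h4 : ((p : ℕ) : ℤ) ∣ f.eval (t % ((p : ℕ) : ℤ)) - f.eval t :=
      ((Int.mod_modEq t ((p : ℕ) : ℤ)).symm.dvd).trans (Polynomial.sub_dvd_eval_sub _ _ _)
    have := dvd_add h4 h2
    simpa using this
  have h1 : (T.card : ℝ) = ∑ y ∈ S, ((T.filter fun t => φ t = y).card : ℝ) := by
    exact_mod_cast Finset.card_eq_sum_card_fiberwise hmaps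
  rw [h1]
  refine (Finset.sum_le_sum fun y _ => hM _ (Finset.filter_subset _ _) ?_).trans ?_
  · intro t ht t' ht'
    rw [Finset.mem_filter] at ht ht'
    refine lift_congr f _ t t' (hT t ht.1).1 (hT t' ht'.1).1 ?_
    intro p hp hpd
    have hps : p ∣ s := by exact_mod_cast hpd
    refine ⟨?_, (hT t ht.1).2 p hp hps⟩
    have hmem : p ∈ s.primeFactors := Nat.mem_primeFactors.2 ⟨hp, hps, hs0⟩
    have h4 := congrFun (ht.2.trans ht'.2.symm) ⟨p, hmem⟩
    simp only [hφ] at h4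
    exact Int.ModEq.dvd h4
  · rw [Finset.sum_const, nsmul_eq_mul]
    refine mul_le_mul_of_nonneg_right ?_ hM0
    exact_mod_cast hScard

theorem sum_inv_le (S : ℕ) (B ε : ℝ) (hε : 0 < ε) (hB : 1 ≤ B) (hS : (S : ℝ) ≤ B) :
    ∑ s ∈ Finset.Icc 1 S, (s : ℝ)⁻¹ ≤ (1 + 1 / ε) * B ^ ε := by
  have h1 : ∑ s ∈ Finset.Icc 1 S, (s : ℝ)⁻¹ ≤ 1 + Real.log S := by
    have h2 := harmonic_le_one_add_log S
    rw [harmonic_eq_sum_Icc] at h2
    push_cast at h2
    exact h2
  have h3 : Real.log S ≤ Real.log B := by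
    rcases Nat.eq_zero_or_pos S with h | h
    · rw [h, Nat.cast_zero, Real.log_zero]; exact Real.log_nonneg hB
    · exact Real.log_le_log (by exact_mod_cast h) hS
  have h4 : Real.log B ≤ B ^ ε / ε := Real.log_le_rpow_div (by linarith) hε
  have h5 : 1 ≤ B ^ ε := Real.one_le_rpow hB hε.le
  calc ∑ s ∈ Finset.Icc 1 S, (s : ℝ)⁻¹ ≤ 1 + Real.log S := h1
    _ ≤ B ^ ε + B ^ ε / ε := by linarith
    _ = _ := by ring

/-- **Multiples of powers.** -/
theorem sparse_mul {n : ℕ} (hn : 1 ≤ n) (F : MvPolynomial (Fin (n + 1)) ℤ) {k : ℕ}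
    (hk : F.IsHomogeneous k) (hk1 : 1 ≤ k) (hirr : Irreducible (toQ F)) (a : Fin (n + 1) → ℤ)
    (i₀ : Fin (n + 1)) (hFa : eval a F ≠ 0) (ha : a i₀ ≠ 0) (ha0 : a 0 = 0) (e : ℕ) (he : 2 ≤ e)
    {δ : ℝ} (hδ : 0 < δ) (hδ1 : δ ≤ 1) :
    SSparse n (fun B x => eval x F ≠ 0 ∧ ∃ (s : ℕ) (σ w : ℤ), Squarefree s ∧
      (s : ℝ) ≤ (B : ℝ) ^ (1 - δ) ∧ (σ.natAbs : ℝ) ≤ (B : ℝ) ^ (δ / 16) ∧
      eval x F = σ * s * w ^ e ∧ ∀ p : ℕ, p.Prime → p ∣ s →
        ¬ (p : ℤ) ∣ a i₀ * eval a F * eval x (dder a F)) := by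
  classical
  obtain ⟨D, r, U, V, hrD, hr, hr0⟩ := elimination_hom F (dder a F) hk (dder_isHomogeneous a F hk)
    hirr (not_dvd_dder a F hk hk1 hFa) a i₀ hFa ha
  obtain ⟨c, hc1, hc⟩ := exists_eval_bound F (hk.totalDegree_le)
  obtain ⟨cr, hcr1, hcr⟩ := exists_eval_bound r hrD.totalDegree_le
  set ca := cdir a i₀ with hca
  set K : ℤ := a i₀ * eval a F with hK
  have hK0 : K ≠ 0 := mul_ne_zero ha hFa
  set A : ℕ := k + c + (1 + (e + K.natAbs + (cr * ca ^ D + D))) with hA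
  obtain ⟨C1, hC1, hbp⟩ := bp_class e he k hk1 A δ hδ
  have hk0 : (0 : ℝ) < k := by exact_mod_cast hk1
  set ε : ℝ := δ / 16 with hε
  have hε0 : 0 < ε := by positivity
  obtain ⟨Cd, hCd0, hCd⟩ := Pool.Agent.H510R2.divisor_bound (ε / k) (by positivity)
  have hmain : SSparse n (fun B x => (eval x F ≠ 0 ∧ ∃ (s : ℕ) (σ w : ℤ), Squarefree s ∧
      (s : ℝ) ≤ (B : ℝ) ^ (1 - δ) ∧ (σ.natAbs : ℝ) ≤ (B : ℝ) ^ (δ / 16) ∧
      eval x F = σ * s * w ^ e ∧ ∀ p : ℕ, p.Prime → p ∣ s →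
        ¬ (p : ℤ) ∣ a i₀ * eval a F * eval x (dder a F)) ∧ eval x (bind₁ (lin a i₀) r) ≠ 0) := by
    refine sparse_of_fibres a i₀ ha ha0 _ 2 (3 * (Cd ^ k * (C1 * (1 + 1 / ε)))) ε hε0
      (by positivity) ?_
    intro B hB2 hB y T hT
    have hB1 : (1 : ℝ) ≤ B := by exact_mod_cast hB
    have hBpos : (0 : ℝ) < B := by linarith
    rcases T.eq_empty_or_nonempty with hemp | ⟨t1, ht1⟩
    · rw [hemp, Finset.card_empty, Nat.cast_zero]; positivity
    have hy : y i₀ = 0 ∧ eval y r ≠ 0 ∧ y ∈ box (n + 1) (ca * B) := by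
      obtain ⟨x, hx, -, ⟨-, h1⟩, -, hxy⟩ := hT t1 ht1
      refine ⟨by rw [← hxy]; simp [mul_comm], ?_, ?_⟩
      · rw [← eval_bind_lin a i₀ r x y hxy]; exact h1
      · have h2 := mem_ybox_of_box a i₀ B x hx
        rw [hxy] at h2
        rw [mem_box]
        intro i
        unfold ybox at h2
        rw [Fintype.mem_piFinset] at h2
        have h7 := h2 i
        split_ifs at h7 with hi
        · rw [Finset.mem_singleton] at h7
          rw [h7, abs_zero]
          exact Int.natCast_nonneg _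
        · rw [Finset.mem_Icc, ← abs_le] at h7
          exact h7
    obtain ⟨hy0, hry, hybox⟩ := hy
    have hca1 : 1 ≤ ca := by rw [hca]; unfold cdir; omega
    have hrle : (eval y r).natAbs ≤ cr * (ca * B) ^ D :=
      hcr (ca * B) (Nat.mul_pos hca1 hB) y hybox
    set f := onLine F y a with hf
    have hfc : f.coeff k = eval a F := (onLine_spec F hk y a).2
    have hfd : f.natDegree = k := by
      refine le_antisymm (onLine_spec F hk y a).1 (Polynomial.le_natDegree_of_ne_zero ?_)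
      rw [hfc]; exact hFa
    have hfl : f.leadingCoeff = eval a F := by
      rw [Polynomial.leadingCoeff, hfd, hfc]
    have hsep := onLine_separable F hk hk1 a i₀ ha r U V hr y hy0 hry
    have hle2 : ∀ m : ℕ, m ≤ B ^ m := fun m =>
      Nat.lt_two_pow_self.le.trans (Nat.pow_le_pow_left hB2 m)
    set S1 := ⌊(B : ℝ) ^ ε⌋₊ with hS1
    have hS1B : (S1 : ℝ) ≤ (B : ℝ) ^ ε := Nat.floor_le (by positivity)
    set S2 := ⌊(B : ℝ) ^ (1 - δ)⌋₊ with hS2
    have hS2B : (S2 : ℝ) ≤ (B : ℝ) ^ (1 - δ) := Nat.floor_le (by positivity)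
    have hpow1 : ∀ t : ℝ, t ≤ 1 → (B : ℝ) ^ t ≤ B := fun t ht => by
      calc (B : ℝ) ^ t ≤ (B : ℝ) ^ (1 : ℝ) := Real.rpow_le_rpow_of_exponent_le hB1 ht
        _ = B := Real.rpow_one _
    have hS1B' : S1 ≤ B := by
      have h1 : (S1 : ℝ) ≤ B := hS1B.trans (hpow1 _ (by rw [hε]; linarith))
      exact_mod_cast h1
    have hS2B' : (S2 : ℝ) ≤ B := hS2B.trans (hpow1 _ (by linarith))
    set Ts : ℤ → ℕ → Finset ℤ := fun σ s => T.filter fun t =>
      ∃ x ∈ box (n + 1) B, eval x F ≠ 0 ∧ x i₀ = t ∧ (fun i => a i₀ * x i - a i * x i₀) = y ∧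
        Squarefree s ∧ (∃ w : ℤ, eval x F = σ * s * w ^ e) ∧ ∀ p : ℕ, p.Prime → p ∣ s →
        ¬ (p : ℤ) ∣ a i₀ * eval a F * eval x (dder a F) with hTs
    have hsub : T ⊆ (Finset.Icc (-(S1 : ℤ)) S1 ×ˢ Finset.Icc 1 S2).biUnion
        fun q => Ts q.1 q.2 := by
      intro t ht
      obtain ⟨x, hx, -, ⟨⟨h1, s, σ, w, hsq, hs, hσ, h2, h3⟩, -⟩, hxt, hxy⟩ := hT t ht
      rw [Finset.mem_biUnion]
      have h4 : σ.natAbs ≤ S1 := Nat.le_floor hσ
      have h5 : s ≤ S2 := Nat.le_floor hs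
      have h6 : 1 ≤ s := Nat.one_le_iff_ne_zero.2 hsq.ne_zero
      refine ⟨(σ, s), Finset.mem_product.2 ⟨Finset.mem_Icc.2 ⟨by omega, by omega⟩,
        Finset.mem_Icc.2 ⟨h6, h5⟩⟩, ?_⟩
      rw [hTs, Finset.mem_filter]
      exact ⟨ht, x, hx, h1, hxt, hxy, hsq, ⟨w, h2⟩, h3⟩
    have hbound : ∀ q ∈ Finset.Icc (-(S1 : ℤ)) S1 ×ˢ Finset.Icc 1 S2,
        ((Ts q.1 q.2).card : ℝ) ≤ (Cd ^ k * (B : ℝ) ^ ε) *
          (C1 * ((B : ℝ) / q.2) * (B : ℝ) ^ (-(δ / 4))) := by
      rintro ⟨σ, s⟩ hq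
      rw [Finset.mem_product, Finset.mem_Icc, Finset.mem_Icc] at hq
      obtain ⟨hσ, hs1, hs2⟩ := hq
      simp only at hσ hs1 hs2 ⊢
      rcases (Ts σ s).eq_empty_or_nonempty with hemp | ⟨t2, ht2⟩
      · rw [hemp, Finset.card_empty, Nat.cast_zero]
        positivity
      have hmem : ∀ t ∈ Ts σ s, ∃ x ∈ box (n + 1) B, eval x F ≠ 0 ∧ x i₀ = t ∧
          (fun i => a i₀ * x i - a i * x i₀) = y ∧
        Squarefree s ∧ (∃ w : ℤ, eval x F = σ * s * w ^ e) ∧ ∀ p : ℕ, p.Prime → p ∣ s →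
        ¬ (p : ℤ) ∣ a i₀ * eval a F * eval x (dder a F) := fun t ht => (Finset.mem_filter.1 ht).2
      obtain ⟨x2, -, hx2, -, -, hsq, ⟨w2, hw2⟩, hcop2⟩ := hmem t2 ht2
      have hσ0 : σ ≠ 0 := by
        rintro rfl
        rw [zero_mul, zero_mul] at hw2
        exact hx2 hw2
      have hsB : (s : ℝ) ≤ (B : ℝ) ^ (1 - δ) := le_trans (by exact_mod_cast hs2) hS2B
      have h1 := card_classes f s hsq (Ts σ s) (by
        intro t ht
        obtain ⟨x, hx, hne, rfl, hxy, -, ⟨w, hw⟩, hcop⟩ := hmem t ht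
        refine ⟨?_, ?_⟩
        · rw [hf, eval_fibre F hk a i₀ x y hxy, hw]
          exact ⟨a i₀ ^ k * (σ * w ^ e), by ring⟩
        · intro p hp hps h6
          have hpZ : Prime (p : ℤ) := Nat.prime_iff_prime_int.1 hp
          rw [hf, derivative_onLine, eval_fibre (dder a F) (dder_isHomogeneous a F hk) a i₀ x y hxy]
            at h6
          rcases hpZ.dvd_or_dvd h6 with h7 | h7
          · exact hcop p hp hps (((hpZ.dvd_of_dvd_pow h7).mul_right _).mul_right _)
          · exact hcop p hp hps (h7.mul_left _)) (by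
        intro p hp hps h6
        rw [hfl] at h6
        exact hcop2 p hp hps ((h6.mul_left _).mul_right _))
        (C1 * ((B : ℝ) / s) * (B : ℝ) ^ (-(δ / 4))) (by
        intro T' hT' hcl
        set N : ℕ := e * (K.natAbs * (σ.natAbs * (eval y r).natAbs)) with hN
        have hN1 : 1 ≤ N := Nat.one_le_iff_ne_zero.mpr (by
          rw [hN]
          exact Nat.mul_ne_zero (by omega) (Nat.mul_ne_zero (Int.natAbs_ne_zero.mpr hK0)
            (Nat.mul_ne_zero (Int.natAbs_ne_zero.mpr hσ0) (Int.natAbs_ne_zero.mpr hry))))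
        have hNA : N ≤ B ^ A := by
          calc N ≤ B ^ e * (B ^ K.natAbs * (B ^ 1 * (B ^ (cr * ca ^ D) * B ^ D))) := by
                refine Nat.mul_le_mul (hle2 e) (Nat.mul_le_mul (hle2 _) (Nat.mul_le_mul ?_ ?_))
                · rw [pow_one]; omega
                · refine hrle.trans ?_
                  rw [mul_pow, ← mul_assoc]
                  exact Nat.mul_le_mul_right _ (hle2 _)
            _ = B ^ (e + (K.natAbs + (1 + (cr * ca ^ D + D)))) := by
                rw [← pow_add, ← pow_add, ← pow_add, ← pow_add]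
            _ ≤ B ^ A := Nat.pow_le_pow_right hB (by rw [hA]; omega)
        refine hbp B hB2 f hfd hsep s hs1 hsB (a i₀ ^ k * σ) (mul_ne_zero (pow_ne_zero _ ha) hσ0)
          N hN1 hNA T' ?_ hcl ?_
        · intro t ht
          obtain ⟨x, hx, hne, rfl, hxy, -, ⟨w, hw⟩, hcop⟩ := hmem t (hT' ht)
          refine ⟨mem_box.mp hx i₀, w, ?_, ?_⟩
          · have h3 : w.natAbs ≤ (eval x F).natAbs := by
              refine Nat.le_of_dvd (Int.natAbs_pos.mpr hne) (Int.natAbs_dvd_natAbs.mpr ?_)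
              rw [hw]
              exact (dvd_pow_self w (by omega)).mul_left _
            have h4 := hc B hB x hx
            have h5 : c * B ^ k ≤ B ^ A := by
              calc c * B ^ k ≤ B ^ c * B ^ k := Nat.mul_le_mul_right _ (hle2 c)
                _ = B ^ (c + k) := by rw [← pow_add]
                _ ≤ B ^ A := Nat.pow_le_pow_right hB (by rw [hA]; omega)
            rw [Int.abs_eq_natAbs]
            exact_mod_cast h3.trans (h4.trans h5)
          · rw [hf, eval_fibre F hk a i₀ x y hxy, hw]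
            ring
        · intro q hq hqN
          have hqZ : Prime (q : ℤ) := Nat.prime_iff_prime_int.1 hq
          have hq2 : ¬ q ∣ e := fun h => hqN (h.mul_right _)
          have hq3 : ¬ (q : ℤ) ∣ K := fun h =>
            hqN (((Int.natCast_dvd.1 h).mul_right _).mul_left _)
          have hq1 : ¬ (q : ℤ) ∣ σ := fun h =>
            hqN ((((Int.natCast_dvd.1 h).mul_right _).mul_left _).mul_left _)
          have hq4 : ¬ (q : ℤ) ∣ eval y r := fun h =>
            hqN ((((Int.natCast_dvd.1 h).mul_left _).mul_left _).mul_left _)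
          have hq5 : ¬ (q : ℤ) ∣ a i₀ := fun h => hq3 (h.mul_right _)
          refine ⟨?_, hq2, ?_⟩
          · intro h
            rcases hqZ.dvd_or_dvd h with h1 | h1
            · exact hq5 (hqZ.dvd_of_dvd_pow h1)
            · exact hq1 h1
          · intro t ht h1 h2
            obtain ⟨x, hx, hne, rfl, hxy, -, -, -⟩ := hmem t (hT' ht)
            rw [hf, eval_fibre F hk a i₀ x y hxy] at h1
            rw [hf, derivative_onLine,
              eval_fibre (dder a F) (dder_isHomogeneous a F hk) a i₀ x y hxy] at h2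
            have h3 : (q : ℤ) ∣ eval x F := by
              rcases hqZ.dvd_or_dvd h1 with h4 | h4
              · exact absurd (hqZ.dvd_of_dvd_pow h4) hq5
              · exact h4
            have h5 : (q : ℤ) ∣ eval x (dder a F) := by
              rcases hqZ.dvd_or_dvd h2 with h4 | h4
              · exact absurd (hqZ.dvd_of_dvd_pow h4) hq5
              · exact h4
            apply hq4
            rw [← eval_bind_lin a i₀ r x y hxy, hr, map_add, map_mul, map_mul]
            exact dvd_add (h3.mul_left _) (h5.mul_left _))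
      rw [hfd] at h1
      refine h1.trans (mul_le_mul_of_nonneg_right ?_ (by positivity))
      have h5 : (k : ℝ) ^ s.primeFactors.card ≤ (s.divisors.card : ℝ) ^ k := by
        exact_mod_cast pow_card_primeFactors_le k s (by omega)
      refine h5.trans ?_
      have h6 := hCd s hs1
      calc (s.divisors.card : ℝ) ^ k ≤ (Cd * (s : ℝ) ^ (ε / k)) ^ k :=
            pow_le_pow_left₀ (by positivity) h6 _
        _ = Cd ^ k * (s : ℝ) ^ ε := by
            rw [mul_pow, ← Real.rpow_natCast ((s : ℝ) ^ (ε / k)), ← Real.rpow_mul (by positivity)]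
            congr 2
            field_simp
        _ ≤ Cd ^ k * (B : ℝ) ^ ε := by
            refine mul_le_mul_of_nonneg_left ?_ (by positivity)
            refine Real.rpow_le_rpow (by positivity) ?_ hε0.le
            exact le_trans (by exact_mod_cast hs2) hS2B'
    have h1 : (T.card : ℝ) ≤ ∑ q ∈ Finset.Icc (-(S1 : ℤ)) S1 ×ˢ Finset.Icc 1 S2,
        ((Ts q.1 q.2).card : ℝ) := by
      exact_mod_cast (Finset.card_le_card hsub).trans Finset.card_biUnion_le
    refine h1.trans ((Finset.sum_le_sum hbound).trans ?_)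
    rw [Finset.sum_product]
    simp only
    rw [Finset.sum_const, card_Icc_int, nsmul_eq_mul]
    have h2 : ∑ s ∈ Finset.Icc 1 S2, (Cd ^ k * (B : ℝ) ^ ε) *
        (C1 * ((B : ℝ) / s) * (B : ℝ) ^ (-(δ / 4))) =
        (Cd ^ k * (B : ℝ) ^ ε) * (C1 * B * (B : ℝ) ^ (-(δ / 4))) *
          ∑ s ∈ Finset.Icc 1 S2, (s : ℝ)⁻¹ := by
      rw [Finset.mul_sum]
      exact Finset.sum_congr rfl fun s _ => by rw [div_eq_mul_inv]; ring
    rw [h2]
    have h3 := sum_inv_le S2 B ε hε0 hB1 hS2B'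
    have h4 : (((2 * S1 + 1 : ℕ) : ℝ)) ≤ 3 * (B : ℝ) ^ ε := by
      have : 1 ≤ (B : ℝ) ^ ε := Real.one_le_rpow hB1 hε0.le
      push_cast
      linarith
    calc ((2 * S1 + 1 : ℕ) : ℝ) * ((Cd ^ k * (B : ℝ) ^ ε) * (C1 * B * (B : ℝ) ^ (-(δ / 4))) *
          ∑ s ∈ Finset.Icc 1 S2, (s : ℝ)⁻¹) ≤
          (3 * (B : ℝ) ^ ε) * ((Cd ^ k * (B : ℝ) ^ ε) * (C1 * B * (B : ℝ) ^ (-(δ / 4))) *
            ((1 + 1 / ε) * (B : ℝ) ^ ε)) := by
          refine mul_le_mul h4 (mul_le_mul_of_nonneg_left h3 (by positivity)) ?_ (by positivity)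
          refine mul_nonneg (by positivity) (Finset.sum_nonneg fun s _ => by positivity)
      _ = 3 * (Cd ^ k * (C1 * (1 + 1 / ε))) * ((B : ℝ) ^ ε * (B : ℝ) ^ ε * (B : ℝ) ^ ε *
            ((B : ℝ) ^ (1 : ℝ) * (B : ℝ) ^ (-(δ / 4)))) := by
          rw [Real.rpow_one]; ring
      _ = _ := by
          rw [← Real.rpow_add hBpos, ← Real.rpow_add hBpos, ← Real.rpow_add hBpos,
            ← Real.rpow_add hBpos]
          congr 2
          rw [hε]
          ring
  refine ((sparse_zeros hn (bind₁ (lin a i₀) r) (bind_isHomogeneous a i₀ r hrD) hr0).or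
    hmain).mono ?_
  intro B x _ _ _ hx
  by_cases h0 : eval x (bind₁ (lin a i₀) r) = 0
  · exact Or.inl h0
  · exact Or.inr ⟨hx, h0⟩

end Run7.h742.VI
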