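import Mathlib
import Pool.Agent.N445.VW.Rad
import Pool.Agent.Run7.h742.VI.Mul

/-!
# The radical of the values of a form at almost all vectors of each slice (helper742)

The combinatorial argument is that of `Pool.Agent.N445.VW.Rad2`.
-/

set_option autoImplicit false

namespace Run7.h742.VI

open MvPolynomial Pool.Agent.TH910.Voj Pool.Agent.H813R3.Voj
open Pool.Agent.N445.VW hiding sparse_of_fibres sparse_sing sparse_square sparse_rad sparse_power

/-- **The radical of the values of a form at almost all vectors of each slice.** -/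
theorem sparse_rad {n : ℕ} (hn : 1 ≤ n) (F : MvPolynomial (Fin (n + 1)) ℤ) {k : ℕ}
    (hk : F.IsHomogeneous k) (hk1 : 1 ≤ k) (hirr : Irreducible (toQ F)) (a : Fin (n + 1) → ℤ)
    (i₀ : Fin (n + 1)) (hFa : eval a F ≠ 0) (ha : a i₀ ≠ 0) (ha0 : a 0 = 0) (m η : ℝ) (hη : 0 < η)
    (hmk : m ≤ k) (hm2 : m ≤ 2) :
    SSparse n (fun B x => eval x F ≠ 0 ∧
      (rd (eval x F).natAbs : ℝ) ≤ (B : ℝ) ^ (m - η)) := by
  classical
  have hG := not_dvd_dder a F hk hk1 hFa
  obtain ⟨c, hc1, hc⟩ := exists_eval_bound F (hk.totalDegree_le)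
  set K : ℤ := a i₀ * eval a F with hK
  have hK0 : K ≠ 0 := mul_ne_zero ha hFa
  set γ : ℝ := min (η / 4) (1 / 4) with hγ
  have hγ0 : 0 < γ := lt_min (by positivity) (by norm_num)
  have hγη : γ ≤ η / 4 := min_le_left _ _
  have hγ4 : γ ≤ 1 / 4 := min_le_right _ _
  set ε : ℝ := min (min (η / 40) (1 / 16)) (γ / 256) with hε
  have hε0 : 0 < ε := lt_min (lt_min (by positivity) (by norm_num)) (by positivity)
  have hε1 : ε ≤ η / 40 := (min_le_left _ _).trans (min_le_left _ _)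
  have hε2 : ε ≤ 1 / 16 := (min_le_left _ _).trans (min_le_right _ _)
  have hε3 : ε ≤ γ / 256 := min_le_right _ _
  set θ := m - η with hθ
  set β := 1 - γ with hβ
  obtain ⟨η1, hη1, S1⟩ := sparse_sing F hk hk1 a i₀ hFa ha ha0 hε0 (by linarith)
  set η2 : ℝ := min η1 ε with hη2
  have hη20 : 0 < η2 := lt_min hη1 hε0
  have hη21 : η2 ≤ η1 := min_le_left _ _
  have hη2ε : η2 ≤ ε := min_le_right _ _
  have S2 := sparse_gcd hn F (dder a F) hk (dder_isHomogeneous a F hk) hirr hG a i₀ hFa ha ha0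
    (η := η2 / 2) (by positivity)
  have S3 := sparse_square F hk hk1 a i₀ hFa ha ha0 hε0 hγ0 (by linarith)
  have S0 := sparse_small_value F hk hk1 a i₀ hFa ha ha0 hε0 (by linarith)
  have S5 : SSparse n (fun B x => ∃ j : Fin (2 * k + 3), 2 ≤ (j : ℕ) ∧
      (eval x F ≠ 0 ∧ ∃ (s : ℕ) (σ w : ℤ), Squarefree s ∧
      (s : ℝ) ≤ (B : ℝ) ^ (1 - γ) ∧ (σ.natAbs : ℝ) ≤ (B : ℝ) ^ (γ / 16) ∧
      eval x F = σ * s * w ^ (j : ℕ) ∧ ∀ p : ℕ, p.Prime → p ∣ s →
        ¬ (p : ℤ) ∣ a i₀ * eval a F * eval x (dder a F))) := by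
    refine SSparse.exists_fin fun j => ?_
    by_cases hj : 2 ≤ (j : ℕ)
    · exact (sparse_mul hn F hk hk1 hirr a i₀ hFa ha ha0 j hj hγ0 (by linarith)).mono
        fun B x _ _ _ h => h.2
    · exact (SSparse.false n).mono fun B x _ _ _ h => hj h.1
  -- large `B`
  have hev : ∀ (t : ℝ), 0 < t → ∀ C : ℝ, ∃ B₀ : ℕ, ∀ B : ℕ, B₀ ≤ B → C ≤ (B : ℝ) ^ t := by
    intro t ht C
    have h1 : Filter.Tendsto (fun B : ℕ => (B : ℝ) ^ t) Filter.atTop Filter.atTop :=
      (tendsto_rpow_atTop ht).comp tendsto_natCast_atTop_atTop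
    exact Filter.eventually_atTop.mp (h1.eventually_ge_atTop C)
  obtain ⟨B1, hB1⟩ := hev (η2 / 2) (by positivity) (K.natAbs : ℝ)
  obtain ⟨B2, hB2⟩ := hev γ hγ0 (c : ℝ)
  refine (((S0.or S1).or ((S2.or S3).or S5)).of_eventually (B1 + B2) ?_)
  rintro B x hBB hB hx hx0 ⟨hne, hrad⟩
  by_contra hcon
  rw [not_or, not_or, not_or, not_or] at hcon
  obtain ⟨⟨n0, n1⟩, ⟨n2, n3⟩, n5⟩ := hcon
  have hBr : (1 : ℝ) ≤ B := by exact_mod_cast hB
  have hBpos : (0 : ℝ) < B := by linarith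
  have hKB := hB1 B (by omega)
  have hcB := hB2 B (by omega)
  set N := (eval x F).natAbs with hN
  have hN0 : N ≠ 0 := Int.natAbs_ne_zero.2 hne
  have hNpos : 0 < N := Nat.pos_of_ne_zero hN0
  have hNup : (N : ℝ) ≤ (B : ℝ) ^ ((k : ℝ) + γ) := by
    have h1 : (N : ℝ) ≤ c * (B : ℝ) ^ k := by exact_mod_cast hc B hB x hx
    refine h1.trans ?_
    rw [add_comm, Real.rpow_add hBpos, Real.rpow_natCast]
    exact mul_le_mul_of_nonneg_right hcB (by positivity)
  have hNlow : (B : ℝ) ^ ((k : ℝ) - ε) < N := by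
    by_contra h
    push Not at h
    exact n0 ⟨hne, h⟩
  have hdvdN : ∀ d : ℕ, d ∣ N → (d : ℤ) ∣ eval x F := fun d hd => Int.natCast_dvd.2 hd
  obtain ⟨s0, M, hMN, hsq⟩ := Nat.sq_mul_squarefree N
  have hM0 : M ≠ 0 := by
    rintro rfl
    simp at hMN
    omega
  have hs00 : s0 ≠ 0 := by
    rintro rfl
    simp at hMN
    omega
  obtain ⟨ML, M1, hML, hMLp, hM1p⟩ := exists_split M hM0 (fun p => (B : ℝ) ^ β < p)
  have hML0 : ML ≠ 0 := by rintro rfl; simp at hML; exact hM0 hML.symm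
  have hM10 : M1 ≠ 0 := by rintro rfl; simp at hML; exact hM0 hML.symm
  obtain ⟨Ms, Mn, hMs, hMsp, hMnp⟩ := exists_split M1 hM10
    (fun p => (p : ℤ) ∣ K * eval x (dder a F))
  have hMs0 : Ms ≠ 0 := by rintro rfl; simp at hMs; exact hM10 hMs.symm
  have hMn0 : Mn ≠ 0 := by rintro rfl; simp at hMs; exact hM10 hMs.symm
  have hMdvd : M ^ 2 ∣ N := ⟨s0, hMN.symm⟩
  have hM1M : M1 ∣ M := ⟨ML, by rw [mul_comm]; exact hML.symm⟩
  have hMsM : Ms ∣ M := (Dvd.intro _ hMs).trans hM1M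
  have hMnM : Mn ∣ M := (Dvd.intro_left _ hMs).trans hM1M
  have hMLM : ML ∣ M := Dvd.intro _ hML
  have hMN1 : M ∣ N := (dvd_pow_self M two_ne_zero).trans hMdvd
  -- divisors whose primes divide the derivative
  have hsing : ∀ t : ℕ, t ∣ N → (∀ p : ℕ, p.Prime → p ∣ t → (p : ℤ) ∣ K * eval x (dder a F)) →
      (rd t : ℝ) ≤ (B : ℝ) ^ η2 := by
    intro t htN htp
    have hg0 : Int.gcd (eval x F) (eval x (dder a F)) ≠ 0 := fun h =>
      hne (Int.gcd_eq_zero_iff.mp h).1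
    have h1 : rd t ≤ K.natAbs * rd (Int.gcd (eval x F) (eval x (dder a F))) := by
      refine rd_le_mul t _ _ (Int.natAbs_ne_zero.2 hK0) hg0 ?_
      intro p hp hpM
      have hpZ : Prime (p : ℤ) := Nat.prime_iff_prime_int.1 hp
      rcases hpZ.dvd_or_dvd (htp p hp hpM) with h2 | h2
      · left; exact Int.natCast_dvd.1 h2
      · right
        have h3 : (p : ℤ) ∣ eval x F := hdvdN p (hpM.trans htN)
        exact Nat.dvd_gcd (Int.natCast_dvd.1 h3) (Int.natCast_dvd.1 h2)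
    have h2 : (rd (Int.gcd (eval x F) (eval x (dder a F))) : ℝ) ≤ (B : ℝ) ^ (η2 / 2) := by
      by_contra h3
      push Not at h3
      exact n2 ⟨hne, h3⟩
    calc (rd t : ℝ) ≤ K.natAbs * rd (Int.gcd (eval x F) (eval x (dder a F))) := by
          exact_mod_cast h1
      _ ≤ (B : ℝ) ^ (η2 / 2) * (B : ℝ) ^ (η2 / 2) :=
          mul_le_mul hKB h2 (Nat.cast_nonneg _) (by positivity)
      _ = (B : ℝ) ^ η2 := by rw [← Real.rpow_add hBpos]; congr 1; ring
  -- the singular part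
  have bMs : (Ms : ℝ) ≤ (B : ℝ) ^ ε := by
    by_contra h
    push Not at h
    refine n1 ⟨hne, Ms, hdvdN Ms (hMsM.trans hMN1), h, ?_⟩
    exact (hsing Ms (hMsM.trans hMN1) hMsp).trans
      (Real.rpow_le_rpow_of_exponent_le hBr hη21)
  -- the non-singular part
  have hBε : 1 ≤ (B : ℝ) ^ ε := Real.one_le_rpow hBr hε0.le
  have bMn : (Mn : ℝ) ≤ (B : ℝ) ^ ε := by
    by_contra h
    push Not at h
    have hsmall : ∀ p : ℕ, p.Prime → p ∣ Mn → (p : ℝ) ≤ (B : ℝ) ^ ((1 : ℝ) / 2) := by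
      intro p hp hpM
      by_contra h1
      push Not at h1
      refine n3 ⟨p, lt_of_le_of_lt (Real.rpow_le_rpow_of_exponent_le hBr (by linarith)) h1,
        ?_, ?_, ?_⟩
      · have h2 := hM1p p hp (hpM.trans (Dvd.intro_left _ hMs))
        push Not at h2
        exact h2
      · have h3 : p ^ 2 ∣ N := (pow_dvd_pow_of_dvd (hpM.trans hMnM) 2).trans hMdvd
        exact_mod_cast hdvdN _ h3
      · intro q hq hqp
        rw [(Nat.prime_dvd_prime_iff_eq hq hp).1 hqp]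
        exact hMnp p hp hpM
    obtain ⟨d, hd1, hd2, hd3⟩ := exists_divisor Mn _ _ hBε h hsmall
    refine n3 ⟨d, hd2, ?_, ?_, ?_⟩
    · refine hd3.trans ?_
      rw [← Real.rpow_add hBpos]
      refine Real.rpow_le_rpow_of_exponent_le hBr ?_
      linarith
    · have h3 : d ^ 2 ∣ N := (pow_dvd_pow_of_dvd (hd1.trans hMnM) 2).trans hMdvd
      exact_mod_cast hdvdN _ h3
    · intro p hp hpd
      exact hMnp p hp (hpd.trans hd1)
  have bM1 : (M1 : ℝ) ^ 2 ≤ (B : ℝ) ^ (4 * ε) := by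
    have h1 : (M1 : ℝ) = Ms * Mn := by rw [← hMs]; push_cast; rfl
    have h2 : (M1 : ℝ) ≤ (B : ℝ) ^ ε * (B : ℝ) ^ ε := by
      rw [h1]; exact mul_le_mul bMs bMn (Nat.cast_nonneg _) (by positivity)
    calc (M1 : ℝ) ^ 2 ≤ ((B : ℝ) ^ ε * (B : ℝ) ^ ε) ^ 2 := pow_le_pow_left₀ (Nat.cast_nonneg _) h2 2
      _ = (B : ℝ) ^ (4 * ε) := by
          rw [← Real.rpow_add hBpos, ← Real.rpow_natCast, ← Real.rpow_mul hBpos.le]
          congr 1
          push_cast
          ring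
  have hs0rd : s0 ≤ rd N := squarefree_le_rd s0 N hN0 hsq (Dvd.intro_left _ hMN)
  by_cases hML1 : ML = 1
  · -- no large prime
    have h1 : M = M1 := by rw [← hML, hML1, one_mul]
    have h2 : (N : ℝ) ≤ (B : ℝ) ^ (4 * ε) * (B : ℝ) ^ θ := by
      have h3 : (N : ℝ) = (M1 : ℝ) ^ 2 * s0 := by rw [← hMN, h1]; push_cast; rfl
      rw [h3]
      refine mul_le_mul bM1 ?_ (Nat.cast_nonneg _) (by positivity)
      exact le_trans (by exact_mod_cast hs0rd) hrad
    have h3 : (B : ℝ) ^ (4 * ε) * (B : ℝ) ^ θ ≤ (B : ℝ) ^ ((k : ℝ) - ε) := by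
      rw [← Real.rpow_add hBpos]
      refine Real.rpow_le_rpow_of_exponent_le hBr ?_
      rw [hθ]; linarith
    linarith
  · set p := ML.minFac with hp
    have hpp : p.Prime := Nat.minFac_prime hML1
    have hpML : p ∣ ML := Nat.minFac_dvd ML
    have hpB : (B : ℝ) ^ β < p := hMLp p hpp hpML
    have hp0 : (0 : ℝ) < p := by exact_mod_cast hpp.pos
    by_cases hq : ∃ q : ℕ, q.Prime ∧ q ∣ ML ∧ q ≠ p
    · -- two large primes
      obtain ⟨q, hqp, hqML, hqne⟩ := hq
      have hqB : (B : ℝ) ^ β < q := hMLp q hqp hqML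
      have hcop : Nat.Coprime p q := (Nat.coprime_primes hpp hqp).2 hqne.symm
      have hpq : p * q ∣ M := (hcop.mul_dvd_of_dvd_of_dvd hpML hqML).trans hMLM
      have h1 : (B : ℝ) ^ (2 * β) < (p * q : ℕ) := by
        have h2 : (B : ℝ) ^ (2 * β) = (B : ℝ) ^ β * (B : ℝ) ^ β := by
          rw [← Real.rpow_add hBpos]; congr 1; ring
        rw [h2]
        push_cast
        exact mul_lt_mul'' hpB hqB (by positivity) (by positivity)
      have h3 : p * q ≤ rd N := by
        refine squarefree_le_rd _ N hN0 ?_ (hpq.trans hMN1)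
        exact (Nat.squarefree_mul hcop).2 ⟨hpp.squarefree, hqp.squarefree⟩
      have h4 : ((p * q : ℕ) : ℝ) ≤ (B : ℝ) ^ θ := le_trans (by exact_mod_cast h3) hrad
      have h5 : (B : ℝ) ^ θ ≤ (B : ℝ) ^ (2 * β) := by
        refine Real.rpow_le_rpow_of_exponent_le hBr ?_
        rw [hθ, hβ]; linarith
      linarith
    · -- one large prime
      push Not at hq
      have hMLpow : ML = p ^ ML.primeFactorsList.length :=
        Nat.eq_prime_pow_of_unique_prime_dvd hML0 fun {d} hd hdM => hq d hd hdM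
      set j := ML.primeFactorsList.length with hj
      have hj1 : 1 ≤ j := by
        by_contra h
        have : j = 0 := by omega
        rw [this, pow_zero] at hMLpow
        exact hML1 hMLpow
      obtain ⟨s', e, he2, hes, hs'⟩ : ∃ s' e : ℕ, 2 ≤ e ∧ N = p ^ e * (s' * M1 ^ 2) ∧
          Squarefree (p * s') := by
        by_cases hps : p ∣ s0
        · obtain ⟨s', hs'⟩ := hps
          refine ⟨s', 2 * j + 1, by omega, ?_, by rw [← hs']; exact hsq⟩
          rw [← hMN, ← hML, hMLpow, hs', mul_pow, ← pow_mul]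
          ring
        · refine ⟨s0, 2 * j, by omega, ?_, ?_⟩
          · rw [← hMN, ← hML, hMLpow, mul_pow, ← pow_mul]
            ring
          · exact (Nat.squarefree_mul ((Nat.Prime.coprime_iff_not_dvd hpp).2 hps)).2
              ⟨hpp.squarefree, hsq⟩
      have hps' : p * s' ≤ rd N := by
        refine squarefree_le_rd _ N hN0 hs' ?_
        have h1 : p ∣ p ^ e := dvd_pow_self p (by omega)
        rw [hes]
        exact mul_dvd_mul h1 (Dvd.intro _ rfl)
      have hsqs : Squarefree s' := hs'.of_mul_right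
      have hs'0 : s' ≠ 0 := hsqs.ne_zero
      have hrads : (p : ℝ) * s' ≤ (B : ℝ) ^ θ := by
        refine le_trans ?_ hrad
        exact_mod_cast hps'
      -- the cofactor
      have hcof : (s' : ℝ) ≤ (B : ℝ) ^ (1 - γ) := by
        have h1 : (B : ℝ) ^ β * s' ≤ (B : ℝ) ^ θ :=
          (mul_le_mul_of_nonneg_right hpB.le (Nat.cast_nonneg _)).trans hrads
        have h2 : (s' : ℝ) ≤ (B : ℝ) ^ (θ - β) := by
          rw [Real.rpow_sub hBpos, le_div_iff₀ (by positivity)]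
          linarith
        refine h2.trans (Real.rpow_le_rpow_of_exponent_le hBr ?_)
        rw [hθ, hβ]; linarith
      -- the exponent
      have hek : e < 2 * k + 3 := by
        by_contra h
        push Not at h
        have hhalf : (B : ℝ) ^ ((1 : ℝ) / 2) < p := by
          refine lt_of_le_of_lt ?_ hpB
          exact Real.rpow_le_rpow_of_exponent_le hBr (by rw [hβ]; linarith)
        have h1 : ((B : ℝ) ^ ((1 : ℝ) / 2)) ^ (2 * k + 3) < (p : ℝ) ^ (2 * k + 3) :=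
          pow_lt_pow_left₀ hhalf (by positivity) (by omega)
        have h2 : (p : ℝ) ^ (2 * k + 3) ≤ (p : ℝ) ^ e :=
          pow_le_pow_right₀ (by exact_mod_cast hpp.one_lt.le) h
        have h3 : (p : ℝ) ^ e ≤ N := by
          have : p ^ e ≤ N := Nat.le_of_dvd hNpos ⟨_, hes⟩
          exact_mod_cast this
        have h5 : (B : ℝ) ^ ((k : ℝ) + γ) ≤ ((B : ℝ) ^ ((1 : ℝ) / 2)) ^ (2 * k + 3) := by
          rw [← Real.rpow_natCast, ← Real.rpow_mul hBpos.le]
          refine Real.rpow_le_rpow_of_exponent_le hBr ?_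
          push_cast
          linarith
        linarith
      -- primes which divide the derivative
      obtain ⟨sb, sg, hsbg, hsbp, hsgp⟩ := exists_split s' hs'0
        (fun p => (p : ℤ) ∣ K * eval x (dder a F))
      have hs'N : s' ∣ N := by
        rw [hes]; exact (Dvd.intro _ rfl : s' ∣ s' * M1 ^ 2).mul_left _
      have hsbN : sb ∣ N := (Dvd.intro _ hsbg).trans hs'N
      have hsbsq : Squarefree sb := hsqs.squarefree_of_dvd (Dvd.intro _ hsbg)
      have hsgsq : Squarefree sg := hsqs.squarefree_of_dvd (Dvd.intro_left _ hsbg)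
      have hsb : (sb : ℝ) ≤ (B : ℝ) ^ ε := by
        have h1 : sb ≤ rd sb := squarefree_le_rd sb sb hsbsq.ne_zero hsbsq dvd_rfl
        calc (sb : ℝ) ≤ rd sb := by exact_mod_cast h1
          _ ≤ (B : ℝ) ^ η2 := hsing sb hsbN hsbp
          _ ≤ _ := Real.rpow_le_rpow_of_exponent_le hBr hη2ε
      have hsg : (sg : ℝ) ≤ (B : ℝ) ^ (1 - γ) := by
        refine le_trans ?_ hcof
        have : sg ≤ s' := Nat.le_of_dvd (Nat.pos_of_ne_zero hs'0) (Dvd.intro_left _ hsbg)
        exact_mod_cast this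
      have hσB : ((M1 ^ 2 * sb : ℕ) : ℝ) ≤ (B : ℝ) ^ (γ / 16) := by
        push_cast
        calc (M1 : ℝ) ^ 2 * sb ≤ (B : ℝ) ^ (4 * ε) * (B : ℝ) ^ ε :=
              mul_le_mul bM1 hsb (Nat.cast_nonneg _) (by positivity)
          _ = (B : ℝ) ^ (5 * ε) := by rw [← Real.rpow_add hBpos]; congr 1; ring
          _ ≤ _ := Real.rpow_le_rpow_of_exponent_le hBr (by linarith)
      refine n5 ⟨⟨e, hek⟩, he2, hne, ?_⟩
      rcases Int.natAbs_eq (eval x F) with h | h
      · refine ⟨sg, (M1 ^ 2 * sb : ℕ), (p : ℤ), hsgsq, hsg, ?_, ?_, hsgp⟩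
        · rw [Int.natAbs_natCast]; exact hσB
        · rw [h, ← hN, hes, ← hsbg]; push_cast; ring
      · refine ⟨sg, -((M1 ^ 2 * sb : ℕ) : ℤ), (p : ℤ), hsgsq, hsg, ?_, ?_, hsgp⟩
        · rw [Int.natAbs_neg, Int.natAbs_natCast]; exact hσB
        · rw [h, ← hN, hes, ← hsbg]; push_cast; ring

end Run7.h742.VI
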